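import Pool.Agent.Helper69.HG.Defs

open Finset Polynomial

namespace Pool.Agent.Helper69.HG

variable {K : Type*} [Field K]

lemma pow_coeff_lt {P : K[X]} (h0 : P.coeff 0 = 0) {k i : ℕ} (h : i < k) : (P ^ k).coeff i = 0 := by
  obtain ⟨q, hq⟩ := X_dvd_iff.2 h0
  rw [hq, mul_pow, mul_comm, coeff_mul_X_pow', if_neg (by omega)]

/-- more terms do not matter -/
lemma expc_eq {P : K[X]} (h0 : P.coeff 0 = 0) {N M : ℕ} (h : N ≤ M) :
    expc P N = ∑ k ∈ range (M + 1), (P ^ k).coeff N / (k.factorial : K) := by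
  unfold expc
  refine Finset.sum_subset (fun x hx => ?_) fun x _ hx => ?_
  · rw [mem_range] at hx ⊢; omega
  · rw [mem_range] at hx
    rw [pow_coeff_lt h0 (by omega), zero_div]

lemma expc_zero (P : K[X]) : expc P 0 = 1 := by
  simp [expc]

lemma expc_rec [CharZero K] {P : K[X]} (h0 : P.coeff 0 = 0) (N : ℕ) :
    ((N : K) + 1) * expc P (N + 1) = ∑ m ∈ range (N + 1), ((m : K) + 1) * P.coeff (m + 1) * expc P (N - m) := by
  have h1 : ∀ k : ℕ, ((N : K) + 1) * ((P ^ (k + 1)).coeff (N + 1) / ((k + 1).factorial : K)) =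
      ∑ m ∈ range (N + 1), ((m : K) + 1) * P.coeff (m + 1) * ((P ^ k).coeff (N - m) / (k.factorial : K)) := by
    intro k
    have hd : (derivative (P ^ (k + 1))).coeff N = (P ^ (k + 1)).coeff (N + 1) * ((N : K) + 1) := coeff_derivative _ _
    rw [derivative_pow, Nat.add_sub_cancel, mul_assoc, mul_comm (P ^ k) _, coeff_C_mul, coeff_mul,
      Finset.Nat.sum_antidiagonal_eq_sum_range_succ_mk] at hd
    have hk : ((k + 1).factorial : K) = ((k : K) + 1) * (k.factorial : K) := by
      rw [Nat.factorial_succ]; push_cast; ring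
    have hk1 : (k : K) + 1 ≠ 0 := by exact_mod_cast Nat.succ_ne_zero k
    have hk2 : (k.factorial : K) ≠ 0 := by exact_mod_cast Nat.factorial_ne_zero k
    rw [hk, ← mul_div_assoc, mul_comm ((N : K) + 1), ← hd]
    push_cast
    rw [mul_div_mul_left _ _ hk1, Finset.sum_div]
    refine Finset.sum_congr rfl fun m _ => ?_
    simp only [coeff_derivative]
    ring
  have h2 : expc P (N + 1) = ∑ k ∈ range (N + 1), (P ^ (k + 1)).coeff (N + 1) / ((k + 1).factorial : K) := by
    unfold expc
    rw [Finset.sum_range_succ' _ (N + 1)]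
    simp [coeff_one]
  rw [h2, Finset.mul_sum]
  simp only [h1]
  rw [Finset.sum_comm]
  refine Finset.sum_congr rfl fun m hm => ?_
  rw [← Finset.mul_sum, expc_eq h0 (Nat.sub_le N m)]

lemma blp_coeff (u : ℕ → K) (m : ℕ) : (blp u).coeff m = if 2 ≤ m ∧ m ≤ 32 then u (m - 1) else 0 := by
  unfold blp
  rw [finsetSum_coeff]
  simp only [coeff_C_mul, coeff_X_pow, mul_ite, mul_one, mul_zero]
  split_ifs with h
  · rw [Finset.sum_eq_single (m - 1)]
    · rw [if_pos (by omega)]
    · intro b _ hb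
      rw [if_neg (by omega)]
    · intro hb
      rw [mem_Icc] at hb
      omega
  · refine Finset.sum_eq_zero fun j hj => ?_
    rw [mem_Icc] at hj
    rw [if_neg (by omega)]

lemma blp_zero (u : ℕ → K) : (blp u).coeff 0 = 0 := by
  rw [blp_coeff, if_neg (by omega)]

end Pool.Agent.Helper69.HG
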