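import Pool.Agent.Helper69.HG.Mol
import Pool.Agent.Helper49.HG.Wir

/-!
# Hall gaps: the statements of the blocks

Everywhere `L = log T`, windows `[T, 2T]`; quantifier order `∃ b₀, ∀ b ≥ b₀, ∃ ε₀ > 0, ∀ ε ≤ ε₀, ∃ T₀, ∀ T ≥ T₀, ∀ a, IsCM T ε b a → …`.
-/

open Finset MeasureTheory Filter Topology Set
open scoped ArithmeticFunction.Moebius

namespace Pool.Agent.Helper69.HG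

/-- `∑_{N ≤ X} c_N N^(-1/2-it)` -/
noncomputable def DP (X : ℕ) (c : ℕ → ℂ) (t : ℝ) : ℂ :=
  ∑ N ∈ Finset.Icc 1 X, c N * (N : ℂ) ^ (-(1 / 2 + Complex.I * t) : ℂ)

/-- `ζ(1/2 + it)` -/
noncomputable def ze (t : ℝ) : ℂ := riemannZeta (1 / 2 + Complex.I * t)

/-- prime sum over the primes of index `i`: `∑ p^(-1/2-it)` -/
noncomputable def Pb (T : ℝ) (i : ℕ) (t : ℝ) : ℂ :=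
  ∑ p ∈ (Finset.Icc 1 ⌊T⌋₊).filter (fun p => p.Prime ∧ ixp T p = i), (p : ℂ) ^ (-(1 / 2 + Complex.I * t) : ℂ)

/-- the resonator with all tuples of primes (not only distinct ones) -/
noncomputable def RF (T t : ℝ) : ℂ :=
  ∑ k ∈ Finset.range 33, ((kp ^ k / k.factorial : ℝ) : ℂ) *
    ∑ i ∈ Fintype.piFinset (fun _ : Fin k => Finset.Icc 2 32), (Qz (∑ j, i j) : ℂ) * ∏ j, Pb T (i j) t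

/-- block CS: the cells have bounded sum of reciprocals; size of `V'` -/
def CS : Prop :=
  (∃ c₀ : ℝ, 0 < c₀ ∧ ∀ T ε : ℝ, 1 < T → 0 < ε → ∀ (j : ℕ) (S : Finset ℕ), (∀ p ∈ S, InCell T ε j p) →
    ∑ p ∈ S, 1 / (p : ℝ) ≤ c₀) ∧
  ∃ c C : ℝ, 0 < c ∧ 0 < C ∧ ∀ ε : ℝ, 0 < ε → ε ≤ 1 → ∃ T₀ : ℝ, ∀ T : ℝ, T₀ ≤ T →
    c / ε ≤ Real.log T * Vp T ε ∧ Real.log T * Vp T ε ≤ C / ε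

/-- block EX: mollifiers exist -/
def EX : Prop := ∀ (T ε : ℝ) (b : ℕ), 1 < T → 0 < ε → ∃ a : ℕ → ℝ, IsCM T ε b a

/-- block SV: the sieve sums -/
def SV : Prop := ∀ η x₁ : ℝ, 0 < η → 0 < x₁ → ∃ b₀ : ℕ, ∀ b ≥ b₀, ∃ ε₀ : ℝ, 0 < ε₀ ∧ ∀ ε : ℝ, 0 < ε → ε ≤ ε₀ →
  ∃ T₀ : ℝ, ∀ T : ℝ, T₀ ≤ T → ∀ a : ℕ → ℝ, IsCM T ε b a → ∀ σ : ℝ, 1 / 2 ≤ σ → σ ≤ 1 / 2 + x₁ / Real.log T →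
    |Ql (XM T) a σ - Vp T ε| ≤ η * Vp T ε ∧ |Qg (XM T) a σ - Vp T ε| ≤ η * Vp T ε

/-- block SB: twisted sieve divisor sums, in bands and in total (`C` absolute) -/
def SB : Prop := ∃ C : ℝ, 0 < C ∧ ∃ b₀ : ℕ, ∀ b ≥ b₀, ∃ ε₀ : ℝ, 0 < ε₀ ∧ ∀ ε : ℝ, 0 < ε → ε ≤ ε₀ →
  ∃ T₀ : ℝ, ∀ T : ℝ, T₀ ≤ T → ∀ a : ℕ → ℝ, IsCM T ε b a → ∀ ξ : ℝ,
    (∀ Y₁ Y₂ : ℝ, T ^ (1 / 10 : ℝ) ≤ Y₁ → Y₁ ≤ Y₂ → Y₂ ≤ T →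
      ∑ N ∈ Finset.Ioc ⌊Y₁⌋₊ ⌊Y₂⌋₊, ‖lamx T a ξ N‖ ^ 2 / N ≤
        C * (1 + ε * |ξ|) ^ 4 * Vp T ε * (Real.log (Y₂ / Y₁) + 1)) ∧
    ∑ N ∈ Finset.Icc 1 ⌊T⌋₊, ‖lamx T a ξ N‖ ^ 2 / N ≤ C * (1 + ε * |ξ|) ^ 4 / ε

/-- `κ(v) = ∫ F(ξ) e^(iξv) dξ` -/
noncomputable def kF (F : ℝ → ℂ) (v : ℝ) : ℂ := ∫ ξ : ℝ, F ξ * Complex.exp (Complex.I * (ξ * v))

/-- smooth cut: `1` on `[-4, lo]`, `0` on `[hi, ∞)`, bounded by `1`; `F` continuous and rapidly decreasing -/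
structure IsCut (lo hi : ℝ) (F : ℝ → ℂ) : Prop where
  cont : Continuous F
  dec : ∀ k : ℕ, Integrable (fun ξ : ℝ => (1 + |ξ|) ^ k * ‖F ξ‖)
  one : ∀ v : ℝ, -4 ≤ v → v ≤ lo → kF F v = 1
  zero : ∀ v : ℝ, hi ≤ v → kF F v = 0
  bd : ∀ v : ℝ, ‖kF F v‖ ≤ 1

/-- `∑_{n ≤ T} κ(log n/L) n^(iξ/L) n^(-1/2-it)` -/
noncomputable def BF (F : ℝ → ℂ) (T ξ t : ℝ) : ℂ :=
  DP ⌊T⌋₊ (fun n => kF F (Real.log n / Real.log T) * (n : ℂ) ^ (Complex.I * (ξ / Real.log T))) t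

/-- block AFE: the smooth approximate functional equation as an inequality -/
def AFE : Prop := ∀ c : ℝ, 0 < c → ∃ d : ℝ, 0 < d ∧ d ≤ 1 / 40 ∧ d ≤ c ∧ ∃ F F₂ : ℝ → ℂ, IsCut (1 / 2 - d) (1 / 2 + d) F ∧
  IsCut (14 / 25) (23 / 40) F₂ ∧ d * (∫ ξ : ℝ, ‖F ξ‖) ^ 2 ≤ c ∧ ∃ C T₀ : ℝ, 0 < C ∧ ∀ T : ℝ, T₀ ≤ T →
    ∀ t ∈ Set.Icc T (2 * T), ‖ze t‖ ≤ 2 * ‖BF F T 0 t‖ +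
      C / Real.log T * (∫ ξ : ℝ, |ξ| * ‖F ξ‖ * ‖BF F₂ T ξ t‖) + C * T ^ (-(1 / 4) : ℝ)

/-- coefficients of `BF F T ξ · M`: `∑_{m ∣ N} a(m) κ(log(N/m)/L) (N/m)^(iξ/L)` -/
noncomputable def eN (F : ℝ → ℂ) (T : ℝ) (a : ℕ → ℝ) (ξ : ℝ) (N : ℕ) : ℂ :=
  ∑ m ∈ N.divisors, (a m : ℂ) * (kF F (Real.log (N / m : ℕ) / Real.log T) * ((N / m : ℕ) : ℂ) ^ (Complex.I * (ξ / Real.log T)))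

/-- block TW (from SB by Minkowski in `ξ`), `C` absolute -/
def TW : Prop := ∃ C : ℝ, 0 < C ∧ ∃ b₀ : ℕ, ∀ b ≥ b₀, ∃ ε₀ : ℝ, 0 < ε₀ ∧ ∀ ε : ℝ, 0 < ε → ε ≤ ε₀ →
  ∃ T₀ : ℝ, ∀ T : ℝ, T₀ ≤ T → ∀ a : ℕ → ℝ, IsCM T ε b a → ∀ (F : ℝ → ℂ), Continuous F →
    Integrable (fun ξ : ℝ => (1 + |ξ|) ^ 2 * ‖F ξ‖) → ∀ ξ₀ : ℝ,
    (∀ Y₁ Y₂ : ℝ, T ^ (1 / 10 : ℝ) ≤ Y₁ → Y₁ ≤ Y₂ → Y₂ ≤ T →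
      ∑ N ∈ Finset.Ioc ⌊Y₁⌋₊ ⌊Y₂⌋₊, ‖eN F T a ξ₀ N‖ ^ 2 / N ≤
        C * (∫ ξ : ℝ, (1 + ε * |ξ + ξ₀|) ^ 2 * ‖F ξ‖) ^ 2 * Vp T ε * (Real.log (Y₂ / Y₁) + 1)) ∧
    ∑ N ∈ Finset.Icc 1 ⌊T⌋₊, ‖eN F T a ξ₀ N‖ ^ 2 / N ≤ C * (∫ ξ : ℝ, (1 + ε * |ξ + ξ₀|) ^ 2 * ‖F ξ‖) ^ 2 / ε

/-- block BM4: fourth moment -/
def BM4 : Prop := ∃ b₀ : ℕ, ∀ b ≥ b₀, ∃ ε₀ : ℝ, 0 < ε₀ ∧ ∀ ε : ℝ, 0 < ε → ε ≤ ε₀ →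
  ∃ C T₀ : ℝ, 0 < C ∧ ∀ T : ℝ, T₀ ≤ T → ∀ a : ℕ → ℝ, IsCM T ε b a → ∀ c : ℕ → ℂ, (∀ N, ‖c N‖ ≤ 1) →
    ∫ t in T..(2 * T), ‖DP ⌊T ^ (1 / 2 : ℝ)⌋₊ (fun N => c N * (lam a N : ℂ)) t‖ ^ 4 ≤ C * T

/-- block RM4: moments of the monomials of the resonator -/
def RM4 : Prop := ∃ C T₀ : ℝ, 0 < C ∧ ∀ T : ℝ, T₀ ≤ T → ∀ (k : ℕ) (i : Fin k → ℕ), (∀ j, 2 ≤ i j ∧ i j ≤ 32) →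
  ∑ j, i j ≤ 64 → ∀ j₀ : Fin k, ∫ t in T..(2 * T), (∏ j, ‖Pb T (i j) t‖) ^ 4 * ‖Pb T (i j₀) t‖ ^ 2 ≤ C * T

/-- block RD: the resonator is `RF` minus a polynomial over non-squarefree numbers -/
def RD : Prop := ∃ C T₀ : ℝ, 0 < C ∧ ∀ T : ℝ, T₀ ≤ T → ∃ e : ℕ → ℂ, (∀ n, ‖e n‖ ≤ C) ∧
  (∀ n, e n ≠ 0 → n ≠ 0 ∧ ¬ Squarefree n ∧ ∀ p ∈ n.primeFactors, 2 ≤ ixp T p ∧ ixp T p ≤ 32) ∧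
  ∀ t : ℝ, RF T t = DP (XR T) (fun n => (rr T n : ℂ) + e n) t

/-- the function: `ζ(1/2+it) ∑_{h ≤ X} (a * r)(h) h^(-1/2-it)` -/
noncomputable def fg (T : ℝ) (a : ℕ → ℝ) (t : ℝ) : ℂ := ze t * DP (XX T) (fun n => (conv a (rr T) n : ℂ)) t

/-- block UI: small sets carry a small part of the mass -/
def UI : Prop := ∀ c₁ : ℝ, 0 < c₁ → ∃ b₀ : ℕ, ∀ b ≥ b₀, ∃ ε₀ : ℝ, 0 < ε₀ ∧ ∀ ε : ℝ, 0 < ε → ε ≤ ε₀ →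
  ∃ δ T₀ : ℝ, 0 < δ ∧ ∀ T : ℝ, T₀ ≤ T → ∀ a : ℕ → ℝ, IsCM T ε b a → ∀ G : Set ℝ, MeasurableSet G →
    G ⊆ Set.Icc T (2 * T) → volume G ≤ ENNReal.ofReal (δ * T) → ∫ t in G, ‖fg T a t‖ ^ 2 ≤ c₁ * T / ε

/-- block RS: the resonator sums -/
def RS : Prop := ∀ x : ℝ, 0 < x →
  Tendsto (fun T : ℝ => Ql (XR T) (rr T) (1 / 2 + x / Real.log T)) atTop
    (𝓝 (∑ a ∈ Finset.range 65, ∑ b ∈ Finset.range 65, ∑ c ∈ Finset.range 65, (Qz (a + b) : ℝ) * Qz (a + c) *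
      (Gc (2 * x) a * Hc (2 * x) b * Hc (2 * x) c))) ∧
  Tendsto (fun T : ℝ => Qg (XR T) (rr T) (1 / 2 + x / Real.log T)) atTop
    (𝓝 (∑ a ∈ Finset.range 65, ∑ b ∈ Finset.range 65, ∑ c ∈ Finset.range 65, (Qz (a + b) : ℝ) * Qz (a + c) *
      (Gc (2 * x) a * Hc 0 b * Hc 0 c)))

/-- block NUM: the numbers (`λ = 12/5`, `ν₀ = 89/100`) -/
def NUM : Prop := ∃ m₀ m₁ m₂ C : ℝ, 0 < m₀ ∧ (89 / 100) ^ 2 * m₀ - 2 * (89 / 100) * m₁ + m₂ < (25 / 576) * m₀ ∧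
  ∀ x : ℝ, 0 < x → x ≤ 1 / 2 → |Phi x - (m₀ - 2 * x * m₁ + 2 * x ^ 2 * m₂)| ≤ C * x ^ 3

/-- zeros of zeta on the line (ordinates) -/
def Zl : Set ℝ := {t | ze t = 0}

/-- `λ · 2π/log T`, `λ = 12/5` -/
noncomputable def DD (T : ℝ) : ℝ := 12 / 5 * (2 * Real.pi / Real.log T)

/-- block FA: the mass on the long gaps -/
def FA : Prop := ∀ η : ℝ, 0 < η → η ≤ 1 → ∃ c₁ : ℝ, 0 < c₁ ∧ ∃ b₀ : ℕ, ∀ b ≥ b₀, ∃ ε₀ : ℝ, 0 < ε₀ ∧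
  ∀ ε : ℝ, 0 < ε → ε ≤ ε₀ → ∃ T₀ : ℝ, ∀ T : ℝ, T₀ ≤ T → ∀ a : ℕ → ℝ, IsCM T ε b a →
    c₁ * T / ε ≤ ∫ t in Pool.Agent.Helper49.HG.LongSet Zl (DD T) ∩ Set.Icc T ((1 + η) * T), ‖fg T a t‖ ^ 2

/-- block NG: very long gaps are rare -/
def NG : Prop := ∀ e : ℝ, 0 < e → ∃ K T₀ : ℝ, 0 < K ∧ ∀ T : ℝ, T₀ ≤ T →
  volume {t : ℝ | t ∈ Set.Icc T (2 * T) ∧ ∀ u ∈ Set.Ioo t (t + K / Real.log T), ze u ≠ 0} ≤ ENNReal.ofReal (e * T)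

/-- the result -/
def HallGaps : Prop := ∀ η : ℝ, 0 < η → ∃ c T₀ : ℝ, 0 < c ∧ ∀ T : ℝ, T₀ ≤ T →
  ∃ S : Finset ℝ, c * (T * Real.log T) ≤ S.card ∧ ∀ γ ∈ S, γ ∈ Set.Icc T ((1 + η) * T) ∧ riemannZeta (1 / 2 + γ * Complex.I) = 0 ∧
    ∀ u ∈ Set.Ioo γ (γ + 12 / 5 * (2 * Real.pi / Real.log T)), riemannZeta (1 / 2 + u * Complex.I) ≠ 0

end Pool.Agent.Helper69.HG
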