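import Pool.Agent.Helper69.HG.J4

/-! The jet of the block integral. -/

open Finset MeasureTheory

namespace Pool.Agent.Helper69.HG

/-- jet of `Eb j` -/
noncomputable def EJ (j : ℕ) : V4 ℝ :=
  ⟨Real.log (((j : ℝ) + 1) / j), 1 / 160, (2 * (j : ℝ) + 1) / (4 * 160 ^ 2), (3 * (j : ℝ) ^ 2 + 3 * j + 1) / (18 * 160 ^ 3)⟩

theorem J_Eb (j : ℕ) (h1 : 1 ≤ j) (h2 : j ≤ 159) : J (Eb j) (EJ j) := by
  have hj : (1:ℝ) ≤ j := by exact_mod_cast h1
  have hj2 : (j:ℝ) ≤ 159 := by exact_mod_cast h2
  set p : ℝ := (j : ℝ) / 160 with hp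
  set q : ℝ := ((j : ℝ) + 1) / 160 with hq
  have hp0 : 0 < p := by rw [hp]; positivity
  have hpq : p ≤ q := by rw [hp, hq]; gcongr; linarith
  have hq1 : q ≤ 1 := by rw [hq, div_le_one (by norm_num)]; linarith
  have hqp : q - p = 1 / 160 := by rw [hp, hq]; ring
  refine ⟨1, by norm_num, fun y h0 hy => ?_⟩
  have hne : ∀ u ∈ Set.uIcc p q, u ≠ 0 := by
    intro u hu
    rw [Set.uIcc_of_le hpq] at hu
    linarith [hu.1]
  have c1 : ContinuousOn (fun u : ℝ => Real.exp (-(y * u)) / u) (Set.uIcc p q) :=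
    ContinuousOn.div (by fun_prop) (by fun_prop) hne
  have c2 : ContinuousOn (fun u : ℝ => 1 / u) (Set.uIcc p q) :=
    ContinuousOn.div (by fun_prop) (by fun_prop) hne
  have i1 := c1.intervalIntegrable (μ := volume)
  have i2 := c2.intervalIntegrable (μ := volume)
  -- the polynomial part
  have hI : ∫ u in p..q, (1 / u - y + y ^ 2 / 2 * u - y ^ 3 / 6 * u ^ 2) = pv (EJ j) y := by
    have j1 : IntervalIntegrable (fun _ : ℝ => y) volume p q := continuous_const.intervalIntegrable _ _
    have j2 : IntervalIntegrable (fun u : ℝ => y ^ 2 / 2 * u) volume p q := (by fun_prop : Continuous _).intervalIntegrable _ _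
    have j3 : IntervalIntegrable (fun u : ℝ => y ^ 3 / 6 * u ^ 2) volume p q := (by fun_prop : Continuous _).intervalIntegrable _ _
    rw [intervalIntegral.integral_sub ((i2.sub j1).add j2) j3, intervalIntegral.integral_add (i2.sub j1) j2,
      intervalIntegral.integral_sub i2 j1, integral_one_div_of_pos hp0 (hp0.trans_le hpq), intervalIntegral.integral_const,
      intervalIntegral.integral_const_mul, intervalIntegral.integral_const_mul, integral_id, integral_pow]
    have e1 : q / p = ((j : ℝ) + 1) / j := by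
      rw [hp, hq]; field_simp
    rw [e1, hqp]
    unfold pv EJ
    simp only [smul_eq_mul]
    rw [hp, hq]
    norm_num
    ring
  have hE : Eb j y - pv (EJ j) y = ∫ u in p..q, (Real.exp (-(y * u)) / u - (1 / u - y + y ^ 2 / 2 * u - y ^ 3 / 6 * u ^ 2)) := by
    have j4 : IntervalIntegrable (fun u : ℝ => 1 / u - y + y ^ 2 / 2 * u - y ^ 3 / 6 * u ^ 2) volume p q :=
      ((i2.sub (continuous_const.intervalIntegrable _ _)).add ((by fun_prop : Continuous fun u : ℝ => y ^ 2 / 2 * u).intervalIntegrable _ _)).sub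
        ((by fun_prop : Continuous fun u : ℝ => y ^ 3 / 6 * u ^ 2).intervalIntegrable _ _)
    rw [intervalIntegral.integral_sub i1 j4, hI]
    rfl
  rw [hE, one_mul, ← Real.norm_eq_abs]
  have key := intervalIntegral.norm_integral_le_of_norm_le_const (a := p) (b := q) (C := y ^ 4)
    (f := fun u => Real.exp (-(y * u)) / u - (1 / u - y + y ^ 2 / 2 * u - y ^ 3 / 6 * u ^ 2)) ?_
  · refine key.trans ?_
    rw [hqp]
    have : 0 ≤ y ^ 4 := by positivity
    rw [abs_of_pos (by norm_num)]
    linarith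
  · intro u hu
    rw [Set.uIoc_of_le hpq] at hu
    have hu0 : 0 < u := hp0.trans hu.1
    have hu1 : u ≤ 1 := hu.2.trans hq1
    have h := exp_jet (t := y * u) (by positivity) (by nlinarith)
    have e : Real.exp (-(y * u)) / u - (1 / u - y + y ^ 2 / 2 * u - y ^ 3 / 6 * u ^ 2) =
        (Real.exp (-(y * u)) - (1 - y * u + (y * u) ^ 2 / 2 - (y * u) ^ 3 / 6)) / u := by
      field_simp
    rw [e, Real.norm_eq_abs, abs_div, abs_of_pos hu0, div_le_iff₀ hu0]
    refine h.trans ?_
    have hu3 : u ^ 3 ≤ 1 := pow_le_one₀ hu0.le hu1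
    have : (y * u) ^ 4 = y ^ 4 * u * u ^ 3 := by ring
    rw [this]
    exact mul_le_of_le_one_right (by positivity) hu3

end Pool.Agent.Helper69.HG
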