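import Pool.Agent.Helper69.HG.J4

/-! Bounds for `log((j+1)/j)`. -/

open Finset

namespace Pool.Agent.Helper69.HG

lemma log_lower (a : ℝ) (ha : 0 < a) (n : ℕ) :
    ∑ k ∈ range n, (2 : ℝ) * (1 / (2 * k + 1)) * (1 / (2 * a + 1)) ^ (2 * k + 1) ≤ Real.log (1 + a⁻¹) :=
  sum_le_hasSum _ (fun k _ => by positivity) (Real.hasSum_log_one_add_inv ha)

lemma log_upper (a : ℝ) (ha : 0 < a) (n : ℕ) :
    Real.log (1 + a⁻¹) ≤ ∑ k ∈ range n, (2 : ℝ) * (1 / (2 * k + 1)) * (1 / (2 * a + 1)) ^ (2 * k + 1) +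
      2 * (1 / (2 * n + 1)) * (1 / (2 * a + 1)) ^ (2 * n + 1) * (1 - (1 / (2 * a + 1)) ^ 2)⁻¹ := by
  set x : ℝ := 1 / (2 * a + 1) with hx
  have hx0 : 0 < x := by rw [hx]; positivity
  have hx1 : x < 1 := by rw [hx, div_lt_one (by positivity)]; linarith
  have h := Real.hasSum_log_one_add_inv ha
  have hs := h.summable
  rw [← h.tsum_eq, ← hs.sum_add_tsum_nat_add n]
  gcongr
  have hg : HasSum (fun i : ℕ => (2 : ℝ) * (1 / (2 * n + 1)) * x ^ (2 * n + 1) * (x ^ 2) ^ i)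
      (2 * (1 / (2 * n + 1)) * x ^ (2 * n + 1) * (1 - x ^ 2)⁻¹) :=
    (hasSum_geometric_of_lt_one (by positivity) (by nlinarith)).mul_left _
  refine (((summable_nat_add_iff n).2 hs).tsum_le_tsum (fun i => ?_) hg.summable).trans hg.tsum_eq.le
  have e : x ^ (2 * (i + n) + 1) = x ^ (2 * n + 1) * (x ^ 2) ^ i := by
    rw [← pow_mul, ← pow_add]; congr 1; ring
  rw [← hx, e]
  have : (1 : ℝ) / (2 * ((i + n : ℕ) : ℝ) + 1) ≤ 1 / (2 * n + 1) := by
    apply one_div_le_one_div_of_le (by positivity)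
    push_cast
    have : (0:ℝ) ≤ i := Nat.cast_nonneg _
    linarith
  calc 2 * (1 / (2 * ((i + n : ℕ) : ℝ) + 1)) * (x ^ (2 * n + 1) * (x ^ 2) ^ i) ≤
      2 * (1 / (2 * n + 1)) * (x ^ (2 * n + 1) * (x ^ 2) ^ i) := by gcongr
    _ = _ := by ring

/-- `⌊10^10 log((j+1)/j)⌋`, `j = 1..31` -/
def LL : List ℕ :=
  [6931471805, 4054651081, 2876820724, 2231435513, 1823215567, 1541506798, 1335313926, 1177830356, 1053605156,
   953101798, 870113769, 800427076, 741079721, 689928714, 645385211, 606246218, 571584138, 540672212, 512932943,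
   487901641, 465200156, 444517625, 425596144, 408219945, 392207131, 377403279, 363676441, 350913198, 339015516,
   327898228, 317486983]

lemma log_bds (j : ℕ) (h1 : 1 ≤ j) (h2 : j ≤ 31) :
    ((LL.getD (j - 1) 0 : ℕ) : ℝ) / 10 ^ 10 ≤ Real.log (((j : ℝ) + 1) / j) ∧
      Real.log (((j : ℝ) + 1) / j) ≤ (((LL.getD (j - 1) 0 : ℕ) : ℝ) + 1) / 10 ^ 10 := by
  have hj : (0:ℝ) < j := by exact_mod_cast h1
  have e : ((j : ℝ) + 1) / j = 1 + (j : ℝ)⁻¹ := by field_simp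
  rw [e]
  have a1 := log_lower j hj 10
  have a2 := log_upper j hj 10
  refine ⟨le_trans ?_ a1, a2.trans ?_⟩
  · clear a1 a2 e hj
    interval_cases j <;> norm_num [LL, Finset.sum_range_succ]
  · clear a1 a2 e hj
    interval_cases j <;> norm_num [LL, Finset.sum_range_succ]

end Pool.Agent.Helper69.HG
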