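import Pool.Agent.Helper69.HG.KTot
import Pool.Agent.Helper69.HG.Lg
import Pool.Agent.Helper69.HG.JEb
import Pool.Agent.Helper69.HG.Stm

/-! Block NUM. -/

open Finset Polynomial

namespace Pool.Agent.Helper69.HG

/-- coefficient jets -/
noncomputable def AJ (K : ℝ) : List (V4 ℝ) :=
  ⟨0, 0, 0, 0⟩ :: (List.range' 2 31).map fun m : ℕ => (EJ (m - 1)).smul ((m : ℝ) * K)

lemma AF_jets (K : ℝ) : List.Forall₂ J (AF fun j y => K * Eb j y) (AJ K) := by
  unfold AF AJ
  rw [show List.range' 1 32 = 1 :: List.range' 2 31 from rfl, List.map_cons]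
  refine List.Forall₂.cons ?_ ?_
  · refine (J.const 0).congr' fun y => ?_
    rw [blp_coeff, if_neg (by omega)]
    ring
  · rw [List.forall₂_map_left_iff, List.forall₂_map_right_iff, List.forall₂_same]
    intro m hm
    rw [List.mem_range'_1] at hm
    refine ((J_Eb (m - 1) (by omega) (by omega)).smul ((m : ℝ) * K)).congr' fun y => ?_
    rw [blp_coeff, if_pos (by omega)]
    ring

/-- lower check of the coefficients -/
def chkAlo (kn kd D : ℕ) : ℕ → List (V4 ℕ) → Bool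
  | _, [] => true
  | m, x :: X => Nat.ble (x.a * (10 ^ 10 * kd)) (D * m * kn * (LL.getD (m - 2) 0)) &&
      Nat.ble (x.b * (160 * kd)) (D * m * kn) && Nat.ble (x.c * (102400 * kd)) (D * m * kn * (2 * (m - 1) + 1)) &&
      Nat.ble (x.d * (73728000 * kd)) (D * m * kn * (3 * (m - 1) ^ 2 + 3 * (m - 1) + 1)) && chkAlo kn kd D (m + 1) X

/-- upper check of the coefficients -/
def chkAhi (kn kd D : ℕ) : ℕ → List (V4 ℕ) → Bool
  | _, [] => true
  | m, x :: X => Nat.ble (D * m * kn * (LL.getD (m - 2) 0 + 1)) (x.a * (10 ^ 10 * kd)) &&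
      Nat.ble (D * m * kn) (x.b * (160 * kd)) && Nat.ble (D * m * kn * (2 * (m - 1) + 1)) (x.c * (102400 * kd)) &&
      Nat.ble (D * m * kn * (3 * (m - 1) ^ 2 + 3 * (m - 1) + 1)) (x.d * (73728000 * kd)) && chkAhi kn kd D (m + 1) X

lemma rat_lo {D m kn kd c x : ℕ} {n : ℕ} (hkd : 0 < kd) (hc : 0 < c) (h : x * (c * kd) ≤ D * m * kn * n) {v : ℝ}
    (hv : (n : ℝ) / c ≤ v) : (x : ℝ) ≤ D * ((m : ℝ) * ((kn : ℝ) / kd) * v) := by
  have hkd' : (0:ℝ) < kd := by exact_mod_cast hkd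
  have hc' : (0:ℝ) < c := by exact_mod_cast hc
  have h' : (x : ℝ) * (c * kd) ≤ D * m * kn * n := by exact_mod_cast h
  have e : (x : ℝ) ≤ D * ((m : ℝ) * ((kn : ℝ) / kd) * ((n : ℝ) / c)) := by
    have : (D : ℝ) * ((m : ℝ) * ((kn : ℝ) / kd) * ((n : ℝ) / c)) = (D * m * kn * n) / (c * kd) := by
      field_simp
    rw [this, le_div_iff₀ (by positivity)]
    exact h'
  refine e.trans ?_
  gcongr

lemma rat_hi {D m kn kd c x : ℕ} {n : ℕ} (hkd : 0 < kd) (hc : 0 < c) (h : D * m * kn * n ≤ x * (c * kd)) {v : ℝ}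
    (hv : v ≤ (n : ℝ) / c) : D * ((m : ℝ) * ((kn : ℝ) / kd) * v) ≤ (x : ℝ) := by
  have hkd' : (0:ℝ) < kd := by exact_mod_cast hkd
  have hc' : (0:ℝ) < c := by exact_mod_cast hc
  have h' : (D : ℝ) * m * kn * n ≤ x * (c * kd) := by exact_mod_cast h
  have e : D * ((m : ℝ) * ((kn : ℝ) / kd) * ((n : ℝ) / c)) ≤ (x : ℝ) := by
    have : (D : ℝ) * ((m : ℝ) * ((kn : ℝ) / kd) * ((n : ℝ) / c)) = (D * m * kn * n) / (c * kd) := by
      field_simp
    rw [this, div_le_iff₀ (by positivity)]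
    exact h'
  refine le_trans ?_ e
  gcongr

lemma EJ_c {m : ℕ} (_hm : 2 ≤ m) : (EJ (m - 1)).c = ((2 * (m - 1) + 1 : ℕ) : ℝ) / (102400 : ℕ) := by
  unfold EJ
  push_cast
  norm_num

lemma EJ_d {m : ℕ} (_hm : 2 ≤ m) : (EJ (m - 1)).d = ((3 * (m - 1) ^ 2 + 3 * (m - 1) + 1 : ℕ) : ℝ) / (73728000 : ℕ) := by
  unfold EJ
  push_cast
  norm_num

lemma chkAlo_sound {kn kd D : ℕ} (hkd : 0 < kd) : ∀ (X : List (V4 ℕ)) (m : ℕ), 2 ≤ m → m + X.length ≤ 33 →
    chkAlo kn kd D m X = true →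
    List.Forall₂ (lo4 D) X ((List.range' m X.length).map fun m : ℕ => (EJ (m - 1)).smul ((m : ℝ) * ((kn : ℝ) / kd))) := by
  intro X
  induction X with
  | nil => intro m _ _ _; exact List.Forall₂.nil
  | cons x X ih =>
    intro m hm hl h
    simp only [chkAlo, Bool.and_eq_true, Nat.ble_eq] at h
    obtain ⟨⟨⟨⟨h1, h2⟩, h3⟩, h4⟩, h5⟩ := h
    rw [List.length_cons] at hl
    rw [List.length_cons, List.range'_succ, List.map_cons]
    refine List.Forall₂.cons ⟨?_, ?_, ?_, ?_⟩ (ih (m + 1) (by omega) (by omega) h5)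
    · have hb := (log_bds (m - 1) (by omega) (by omega)).1
      rw [show m - 1 - 1 = m - 2 by omega] at hb
      refine rat_lo hkd (by norm_num) h1 ?_
      refine le_trans (le_of_eq ?_) hb
      norm_num
    · refine rat_lo (n := 1) (c := 160) hkd (by norm_num) (by rw [mul_one]; exact h2) ?_
      simp [EJ]
    · exact rat_lo hkd (by norm_num) h3 (EJ_c hm).ge
    · exact rat_lo hkd (by norm_num) h4 (EJ_d hm).ge

lemma chkAhi_sound {kn kd D : ℕ} (hkd : 0 < kd) : ∀ (X : List (V4 ℕ)) (m : ℕ), 2 ≤ m → m + X.length ≤ 33 →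
    chkAhi kn kd D m X = true →
    List.Forall₂ (hi4 D) X ((List.range' m X.length).map fun m : ℕ => (EJ (m - 1)).smul ((m : ℝ) * ((kn : ℝ) / kd))) := by
  intro X
  induction X with
  | nil => intro m _ _ _; exact List.Forall₂.nil
  | cons x X ih =>
    intro m hm hl h
    simp only [chkAhi, Bool.and_eq_true, Nat.ble_eq] at h
    obtain ⟨⟨⟨⟨h1, h2⟩, h3⟩, h4⟩, h5⟩ := h
    rw [List.length_cons] at hl
    rw [List.length_cons, List.range'_succ, List.map_cons]
    have hkd' : (0:ℝ) < kd := by exact_mod_cast hkd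
    have hk : 0 ≤ (m : ℝ) * ((kn : ℝ) / kd) := by positivity
    have hm1 : (1:ℝ) ≤ ((m - 1 : ℕ) : ℝ) := by exact_mod_cast (by omega : 1 ≤ m - 1)
    have hlog : 0 ≤ Real.log ((((m - 1 : ℕ) : ℝ) + 1) / ((m - 1 : ℕ) : ℝ)) := by
      apply Real.log_nonneg
      rw [le_div_iff₀ (by linarith)]
      linarith
    refine List.Forall₂.cons ⟨⟨mul_nonneg hk hlog, ?_, ?_, ?_⟩, ?_, ?_, ?_, ?_⟩ (ih (m + 1) (by omega) (by omega) h5)
    · simp only [V4.smul, EJ]; positivity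
    · simp only [V4.smul]; rw [EJ_c hm]; positivity
    · simp only [V4.smul]; rw [EJ_d hm]; positivity
    · have hb := (log_bds (m - 1) (by omega) (by omega)).2
      rw [show m - 1 - 1 = m - 2 by omega] at hb
      refine rat_hi hkd (by norm_num) h1 ?_
      refine hb.trans (le_of_eq ?_)
      push_cast
      norm_num
    · refine rat_hi (n := 1) (c := 160) hkd (by norm_num) (by rw [mul_one]; exact h2) ?_
      simp [EJ]
    · exact rat_hi hkd (by norm_num) h3 (EJ_c hm).le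
    · exact rat_hi hkd (by norm_num) h4 (EJ_d hm).le

lemma ck1 : chkAlo 64 25 Dn 2 AGlo.tail = true := by decide +kernel
lemma ck2 : chkAhi 64 25 Dn 2 AGhi.tail = true := by decide +kernel
lemma ck3 : chkAlo 8 5 Dn 2 AHlo.tail = true := by decide +kernel
lemma ck4 : chkAhi 8 5 Dn 2 AHhi.tail = true := by decide +kernel

lemma AGlo_ok : List.Forall₂ (lo4 Dn) AGlo (AJ ((64 : ℕ) / (25 : ℕ))) := by
  have h := chkAlo_sound (by norm_num) AGlo.tail 2 le_rfl (by decide) ck1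
  have e : AGlo = ⟨0, 0, 0, 0⟩ :: AGlo.tail := rfl
  rw [e]
  exact List.Forall₂.cons (by simp [lo4]) h

lemma AGhi_ok : List.Forall₂ (hi4 Dn) AGhi (AJ ((64 : ℕ) / (25 : ℕ))) := by
  have h := chkAhi_sound (by norm_num) AGhi.tail 2 le_rfl (by decide) ck2
  have e : AGhi = ⟨0, 0, 0, 0⟩ :: AGhi.tail := rfl
  rw [e]
  exact List.Forall₂.cons (by simp [hi4]) h

lemma AHlo_ok : List.Forall₂ (lo4 Dn) AHlo (AJ ((8 : ℕ) / (5 : ℕ))) := by
  have h := chkAlo_sound (by norm_num) AHlo.tail 2 le_rfl (by decide) ck3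
  have e : AHlo = ⟨0, 0, 0, 0⟩ :: AHlo.tail := rfl
  rw [e]
  exact List.Forall₂.cons (by simp [lo4]) h

lemma AHhi_ok : List.Forall₂ (hi4 Dn) AHhi (AJ ((8 : ℕ) / (5 : ℕ))) := by
  have h := chkAhi_sound (by norm_num) AHhi.tail 2 le_rfl (by decide) ck4
  have e : AHhi = ⟨0, 0, 0, 0⟩ :: AHhi.tail := rfl
  rw [e]
  exact List.Forall₂.cons (by simp [hi4]) h

lemma pk_rel {D : ℕ} {X Y : List (V4 ℕ)} {Z : List (V4 ℝ)} (h1 : List.Forall₂ (lo4 D) X Z) (h2 : List.Forall₂ (hi4 D) Y Z) :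
    List.Forall₂ (R4 D) Z (List.zipWith pk X Y) := by
  induction h1 generalizing Y with
  | nil => cases h2; exact List.Forall₂.nil
  | cons a _ ih =>
    cases h2 with
    | cons b h2' =>
      rw [List.zipWith_cons_cons]
      refine List.Forall₂.cons ?_ (ih h2')
      obtain ⟨a1, a2, a3, a4⟩ := a
      obtain ⟨_, b1, b2, b3, b4⟩ := b
      refine ⟨⟨?_, ?_⟩, ⟨?_, ?_⟩, ⟨?_, ?_⟩, ⟨?_, ?_⟩⟩ <;> simpa [pk]

/-- the real lists -/
noncomputable def GR : List (V4 ℝ) := (RL (AJ ((64 : ℕ) / (25 : ℕ))) 64).reverse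
noncomputable def HR : List (V4 ℝ) := (RL (AJ ((8 : ℕ) / (5 : ℕ))) 64).reverse

lemma GR_rel : List.Forall₂ (R4 Dn) GR GI := by
  have h1 := chkLo_sound (D := Dn) (by decide) AGlo_ok Glo 64 (by decide) chk1
  have h2 := chkHi_sound (D := Dn) (by decide) AGhi_ok Ghi 64 (by decide) chk2
  exact List.forall₂_reverse_iff.2 (pk_rel h1 h2)

lemma HR_rel : List.Forall₂ (R4 Dn) HR HI := by
  have h1 := chkLo_sound (D := Dn) (by decide) AHlo_ok Hlo 64 (by decide) chk3
  have h2 := chkHi_sound (D := Dn) (by decide) AHhi_ok Hhi 64 (by decide) chk4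
  exact List.forall₂_reverse_iff.2 (pk_rel h1 h2)

/-- the total jet -/
noncomputable def PT : V4 ℝ := total cR HR QL GR

lemma finChk_sound (P : V4 Iv) (h : finChk P = true) : ((P.b.hi : ℤ) : ℝ) < 0 ∧
    (-4312496 : ℝ) * P.b.lo + 10252800 * P.c.hi - 11520000 * P.d.lo < 0 := by
  unfold finChk at h
  rw [Bool.and_eq_true, decide_eq_true_eq, decide_eq_true_eq] at h
  exact ⟨by exact_mod_cast h.1, by exact_mod_cast h.2⟩

lemma PT_aux {s b c d : ℝ} (hs : 0 < s) (P : V4 Iv) (h : finChk P = true) (h2 : (P.b.lo : ℝ) ≤ s * b ∧ s * b ≤ P.b.hi)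
    (h3 : (P.c.lo : ℝ) ≤ s * c ∧ s * c ≤ P.c.hi) (h4 : (P.d.lo : ℝ) ≤ s * d ∧ s * d ≤ P.d.hi) :
    b < 0 ∧ -4312496 * b + 10252800 * c - 11520000 * d < 0 := by
  obtain ⟨c1, c2⟩ := finChk_sound P h
  constructor
  · by_contra hh
    push Not at hh
    have : 0 ≤ s * b := by positivity
    linarith [h2.2]
  · by_contra hh
    push Not at hh
    have : 0 ≤ s * (-4312496 * b + 10252800 * c - 11520000 * d) := mul_nonneg hs.le hh
    nlinarith [h2.1, h3.2, h4.1]

lemma PT_num : PT.b < 0 ∧ -4312496 * PT.b + 10252800 * PT.c - 11520000 * PT.d < 0 := by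
  have h := R4_total HR_rel GR_rel QL
  have hD : (0:ℝ) < (Dn : ℝ) * ((Dn : ℝ) * (Dn : ℝ)) := by
    have : (0:ℝ) < (Dn : ℝ) := by unfold Dn; norm_num
    positivity
  obtain ⟨_, h2, h3, h4⟩ := h
  exact PT_aux hD _ chk5 h2 h3 h4

lemma Gc_jets : List.Forall₂ J ((List.range 65).map fun (a : ℕ) => fun y => Gc y a) GR := by
  have h := jets_list (AF_jets ((64 : ℕ) / (25 : ℕ))) 64
  have h1 := List.forall₂_reverse_iff.2 h
  rw [RLc_reverse] at h1
  have e : (fun (a : ℕ) => fun y => Gc y a) = fun N => fun y => expc (blp fun j => (((64 : ℕ) : ℝ) / ((25 : ℕ) : ℝ)) * Eb j y) N := by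
    funext a y
    unfold Gc kp
    norm_num
  rw [e]
  exact h1

lemma Hc_jets : List.Forall₂ J ((List.range 65).map fun (a : ℕ) => fun y => Hc y a) HR := by
  have h := jets_list (AF_jets ((8 : ℕ) / (5 : ℕ))) 64
  have h1 := List.forall₂_reverse_iff.2 h
  rw [RLc_reverse] at h1
  have e : (fun (a : ℕ) => fun y => Hc y a) = fun N => fun y => expc (blp fun j => (((8 : ℕ) : ℝ) / ((5 : ℕ) : ℝ)) * Eb j y) N := by
    funext a y
    unfold Hc kp
    norm_num
  rw [e]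
  exact h1

/-- the numerator of `Phi` at `y = 2x` -/
noncomputable def Nn (y : ℝ) : ℝ := ∑ a ∈ range 65, ∑ b ∈ range 65, ∑ c ∈ range 65, (Qz (a + b) : ℝ) * Qz (a + c) *
    (Gc y a * Hc y b * Hc y c - Real.exp (-y) * (Gc y a * Hc 0 b * Hc 0 c))

lemma Nn_jet : J (fun y => 6 * Nn y) PT := by
  have h := J_total Hc_jets Gc_jets QL
  refine h.congr' fun y => ?_
  have e := totS_range QL (fun a => Hc y a) (fun a => Hc 0 a) (Real.exp (-y)) (fun a => Gc y a) 65 0
  rw [List.drop_zero, ← List.range_eq_range'] at e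
  simp only [List.map_map]
  have e2 : (List.range 65).map ((fun f : ℝ → ℝ => f y) ∘ fun (a : ℕ) => fun y => Hc y a) = (List.range 65).map fun a => Hc y a := rfl
  have e3 : (List.range 65).map ((fun f : ℝ → ℝ => f 0) ∘ fun (a : ℕ) => fun y => Hc y a) = (List.range 65).map fun a => Hc 0 a := rfl
  have e4 : (List.range 65).map ((fun f : ℝ → ℝ => f y) ∘ fun (a : ℕ) => fun y => Gc y a) = (List.range 65).map fun a => Gc y a := rfl
  rw [e2, e3, e4, e]
  congr 1
  unfold Nn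
  refine Finset.sum_congr rfl fun a _ => ?_
  rw [zero_add, Finset.sum_mul_sum, Finset.sum_mul_sum, Finset.mul_sum, Finset.mul_sum, ← Finset.sum_sub_distrib]
  refine Finset.sum_congr rfl fun b _ => ?_
  rw [Finset.mul_sum, Finset.mul_sum, ← Finset.sum_sub_distrib]
  refine Finset.sum_congr rfl fun c _ => ?_
  unfold Qz
  ring

theorem num : NUM := by
  obtain ⟨C, hC, hJ⟩ := Nn_jet
  have h0 : PT.a = 0 := by
    have h := J_at_zero Nn_jet
    rw [← h]
    have : Nn 0 = 0 := by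
      unfold Nn
      refine Finset.sum_eq_zero fun a _ => Finset.sum_eq_zero fun b _ => Finset.sum_eq_zero fun c _ => ?_
      rw [neg_zero, Real.exp_zero]
      ring
    rw [this, mul_zero]
  obtain ⟨n1, n2⟩ := PT_num
  refine ⟨-PT.b / 6, -PT.c / 6, -2 * PT.d / 6, 8 * C / 6, by linarith, by linarith, fun x hx0 hx => ?_⟩
  have h := hJ (2 * x) (by positivity) (by linarith)
  have e : Phi x = Nn (2 * x) / (2 * x) := rfl
  have e2 : Phi x - (-PT.b / 6 - 2 * x * (-PT.c / 6) + 2 * x ^ 2 * (-2 * PT.d / 6)) =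
      (6 * Nn (2 * x) - pv PT (2 * x)) / (6 * (2 * x)) := by
    rw [e]
    unfold pv
    rw [h0]
    field_simp
    ring
  rw [e2, abs_div, abs_of_pos (by positivity : (0:ℝ) < 6 * (2 * x)), div_le_iff₀ (by positivity)]
  refine h.trans (le_of_eq ?_)
  ring

end Pool.Agent.Helper69.HG
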