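import Pool.Agent.Helper69.HG.Defs
import Pool.Agent.Helper57.ED.Def

/-!
# Hall gaps: mollifier, resonator, sums

Parameters: `T` large, `L = log T`; `ε` (the mollifier covers the primes `≤ T^ε`), `b` (cell `j` has `≤ 2(b+j)` prime
factors).  `IsCM T ε b a` are the only properties of the mollifier coefficients `a` used outside of block NG.
-/

open Finset MeasureTheory
open scoped ArithmeticFunction.Moebius

namespace Pool.Agent.Helper69.HG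

/-- `p` is a prime of cell `j`: `T^(ε/2^(j+1)) < p ≤ T^(ε/2^j)`. -/
def InCell (T ε : ℝ) (j p : ℕ) : Prop := p.Prime ∧ T ^ (ε / 2 ^ (j + 1)) < (p : ℝ) ∧ (p : ℝ) ≤ T ^ (ε / 2 ^ j)

open Classical in
/-- number of prime factors of `n` in cell `j`, with multiplicity -/
noncomputable def Om (T ε : ℝ) (j n : ℕ) : ℕ := (n.primeFactorsList.filter (fun p => InCell T ε j p)).length

/-- cell mollifier: the abstract properties -/
structure IsCM (T ε : ℝ) (b : ℕ) (a : ℕ → ℝ) : Prop where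
  one : a 1 = 1
  mul : ∀ m n : ℕ, m ≠ 0 → n ≠ 0 → (∀ j, Om T ε j m = 0 ∨ Om T ε j n = 0) → a (m * n) = a m * a n
  big : ∀ n p : ℕ, p.Prime → p ∣ n → T ^ ε < (p : ℝ) → a n = 0
  supp : ∀ n j : ℕ, 2 * (b + j) < Om T ε j n → a n = 0
  mu : ∀ n j : ℕ, n ≠ 0 → (∀ p : ℕ, p.Prime → p ∣ n → InCell T ε j p) → Om T ε j n ≤ b + j → a n = (μ n : ℝ)
  bd : ∀ n, |a n| ≤ 1

/-- `V' = ∏_{p ≤ T^ε} (1 - 1/p)`; `L V'` is the normalisation. -/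
noncomputable def Vp (T ε : ℝ) : ℝ := ∏ p ∈ (Icc 1 ⌊T ^ ε⌋₊).filter Nat.Prime, (1 - 1 / (p : ℝ))

/-- index of a prime: `⌈160 log p / log T⌉` (`= j + 1` for `T^(j/160) < p ≤ T^((j+1)/160)`) -/
noncomputable def ixp (T : ℝ) (p : ℕ) : ℕ := ⌈160 * Real.log p / Real.log T⌉₊

/-- index of a squarefree number -/
noncomputable def ix (T : ℝ) (n : ℕ) : ℕ := ∑ p ∈ n.primeFactors, ixp T p

open Classical in
/-- resonator coefficients: squarefree `n` with primes of index `2..32`: `κ^ω(n) Q(ix n)` -/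
noncomputable def rr (T : ℝ) (n : ℕ) : ℝ :=
  if Squarefree n ∧ ∀ p ∈ n.primeFactors, 2 ≤ ixp T p ∧ ixp T p ≤ 32 then kp ^ n.primeFactors.card * Qz (ix T n) else 0

/-- Dirichlet convolution -/
noncomputable def conv (a r : ℕ → ℝ) (n : ℕ) : ℝ := ∑ d ∈ n.divisors, a d * r (n / d)

/-- `∑_{h,k ≤ X} a_h a_k lcm(h,k)^(-2σ)` -/
noncomputable def Ql (X : ℕ) (a : ℕ → ℝ) (σ : ℝ) : ℝ :=
  ∑ h ∈ Icc 1 X, ∑ k ∈ Icc 1 X, a h * a k * (Nat.lcm h k : ℝ) ^ (-2 * σ)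

/-- `∑_{h,k ≤ X} a_h a_k gcd(h,k)^(1-2σ)/lcm(h,k)` -/
noncomputable def Qg (X : ℕ) (a : ℕ → ℝ) (σ : ℝ) : ℝ :=
  ∑ h ∈ Icc 1 X, ∑ k ∈ Icc 1 X, a h * a k * ((Nat.gcd h k : ℝ) ^ (1 - 2 * σ) / Nat.lcm h k)

/-- length of the resonator `T^(2/5)`, of the mollifier `T^(1/40)`, of the product `T^(17/40)` -/
noncomputable def XR (T : ℝ) : ℕ := ⌊T ^ (2 / 5 : ℝ)⌋₊
noncomputable def XM (T : ℝ) : ℕ := ⌊T ^ (1 / 40 : ℝ)⌋₊
noncomputable def XX (T : ℝ) : ℕ := ⌊T ^ (17 / 40 : ℝ)⌋₊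

/-- sieve divisor sums with a twist: `λ_ξ(N) = ∑_{m ∣ N} a(m) m^(-iξ/L)` -/
noncomputable def lamx (T : ℝ) (a : ℕ → ℝ) (ξ : ℝ) (N : ℕ) : ℂ :=
  ∑ m ∈ N.divisors, (a m : ℂ) * (m : ℂ) ^ (-(Complex.I * (ξ / Real.log T)))

/-- `λ(N) = ∑_{m ∣ N} a(m)` -/
noncomputable def lam (a : ℕ → ℝ) (N : ℕ) : ℝ := ∑ m ∈ N.divisors, a m

end Pool.Agent.Helper69.HG
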