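import Pool.Agent.Helper69.HG.Dot

/-! The numerator of `Phi` as a function with a jet; interval arithmetic. -/

open Finset Polynomial

namespace Pool.Agent.Helper69.HG

/-! ### intervals -/

structure Iv where
  lo : ℤ
  hi : ℤ

instance : Zero Iv := ⟨⟨0, 0⟩⟩
instance : Add Iv := ⟨fun x y => ⟨x.lo + y.lo, x.hi + y.hi⟩⟩
instance : Neg Iv := ⟨fun x => ⟨-x.hi, -x.lo⟩⟩
instance : Mul Iv := ⟨fun x y => ⟨min (min (x.lo * y.lo) (x.lo * y.hi)) (min (x.hi * y.lo) (x.hi * y.hi)),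
  max (max (x.lo * y.lo) (x.lo * y.hi)) (max (x.hi * y.lo) (x.hi * y.hi))⟩⟩

lemma Iv.add_lo (x y : Iv) : (x + y).lo = x.lo + y.lo := rfl
lemma Iv.add_hi (x y : Iv) : (x + y).hi = x.hi + y.hi := rfl
lemma Iv.mul_lo (x y : Iv) : (x * y).lo = min (min (x.lo * y.lo) (x.lo * y.hi)) (min (x.hi * y.lo) (x.hi * y.hi)) := rfl
lemma Iv.mul_hi (x y : Iv) : (x * y).hi = max (max (x.lo * y.lo) (x.lo * y.hi)) (max (x.hi * y.lo) (x.hi * y.hi)) := rfl

/-- `x` (scaled by `s`) lies in the interval -/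
def iv (s x : ℝ) (I : Iv) : Prop := (I.lo : ℝ) ≤ s * x ∧ s * x ≤ (I.hi : ℝ)

lemma iv_add {s x y : ℝ} {I K : Iv} (h : iv s x I) (h' : iv s y K) : iv s (x + y) (I + K) := by
  unfold iv at *
  rw [Iv.add_lo, Iv.add_hi]
  push_cast
  constructor <;> nlinarith [h.1, h.2, h'.1, h'.2]

lemma iv_neg {s x : ℝ} {I : Iv} (h : iv s x I) : iv s (-x) (-I) := by
  unfold iv at *
  show ((-I.hi : ℤ) : ℝ) ≤ _ ∧ _ ≤ ((-I.lo : ℤ) : ℝ)
  push_cast
  constructor <;> linarith [h.1, h.2]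

lemma mul_between {a b c d X Y : ℝ} (h1 : a ≤ X) (h2 : X ≤ b) (h3 : c ≤ Y) (h4 : Y ≤ d) :
    min (min (a * c) (a * d)) (min (b * c) (b * d)) ≤ X * Y ∧ X * Y ≤ max (max (a * c) (a * d)) (max (b * c) (b * d)) := by
  have key : ∀ z : ℝ, min (z * c) (z * d) ≤ z * Y ∧ z * Y ≤ max (z * c) (z * d) := by
    intro z
    rcases le_total 0 z with hz | hz
    · exact ⟨(min_le_left _ _).trans (mul_le_mul_of_nonneg_left h3 hz), (mul_le_mul_of_nonneg_left h4 hz).trans (le_max_right _ _)⟩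
    · exact ⟨(min_le_right _ _).trans (mul_le_mul_of_nonpos_left h4 hz), (mul_le_mul_of_nonpos_left h3 hz).trans (le_max_left _ _)⟩
  rcases le_total 0 Y with hY | hY
  · have e1 : a * Y ≤ X * Y := mul_le_mul_of_nonneg_right h1 hY
    have e2 : X * Y ≤ b * Y := mul_le_mul_of_nonneg_right h2 hY
    exact ⟨(min_le_left _ _).trans ((key a).1.trans e1), e2.trans ((key b).2.trans (le_max_right _ _))⟩
  · have e1 : b * Y ≤ X * Y := mul_le_mul_of_nonpos_right h2 hY
    have e2 : X * Y ≤ a * Y := mul_le_mul_of_nonpos_right h1 hY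
    exact ⟨(min_le_right _ _).trans ((key b).1.trans e1), e2.trans ((key a).2.trans (le_max_left _ _))⟩

lemma iv_mul {s t x y : ℝ} {I K : Iv} (h : iv s x I) (h' : iv t y K) : iv (s * t) (x * y) (I * K) := by
  unfold iv at *
  rw [Iv.mul_lo, Iv.mul_hi]
  have := mul_between h.1 h.2 h'.1 h'.2
  push_cast
  have e : s * t * (x * y) = s * x * (t * y) := by ring
  rw [e]
  exact this

lemma iv_int (q : ℤ) : iv 1 (q : ℝ) ⟨q, q⟩ := by
  unfold iv
  simp

/-! ### polymorphic computation -/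

section poly

variable {α : Type*} [Zero α] [Add α] [Mul α] [Neg α]

/-- `∑ Q_i h_i` -/
def qdot (c : ℤ → α) : List ℤ → List (V4 α) → V4 α
  | q :: Q, h :: H => (h.smul (c q)).add (qdot c Q H)
  | _, _ => ⟨0, 0, 0, 0⟩

/-- `6 (g U² - e g U₀²)`, `e = (1,1,1/2,1/6)` -/
def term (c : ℤ → α) (g U : V4 α) : V4 α :=
  ((g.mul (U.mul U)).smul (c 6)).add
    (((V4.mul (⟨c 6, c 6, c 3, c 1⟩ : V4 α) g).smul (U.a * U.a)).smul (c (-1)))

/-- sum of the terms -/
def total (c : ℤ → α) (H : List (V4 α)) : List ℤ → List (V4 α) → V4 α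
  | Q, g :: G => (term c g (qdot c Q H)).add (total c H Q.tail G)
  | _, [] => ⟨0, 0, 0, 0⟩

end poly

/-! ### relation real / interval -/

def R4 (s : ℝ) (x : V4 ℝ) (I : V4 Iv) : Prop := iv s x.a I.a ∧ iv s x.b I.b ∧ iv s x.c I.c ∧ iv s x.d I.d

lemma R4_zero (s : ℝ) : R4 s ⟨0, 0, 0, 0⟩ ⟨0, 0, 0, 0⟩ := by
  have : iv s 0 0 := by unfold iv; show ((0:ℤ):ℝ) ≤ _ ∧ _ ≤ ((0:ℤ):ℝ); simp
  exact ⟨this, this, this, this⟩

lemma R4.add {s : ℝ} {x y : V4 ℝ} {I K : V4 Iv} (h : R4 s x I) (h' : R4 s y K) : R4 s (x.add y) (I.add K) :=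
  ⟨iv_add h.1 h'.1, iv_add h.2.1 h'.2.1, iv_add h.2.2.1 h'.2.2.1, iv_add h.2.2.2 h'.2.2.2⟩

lemma R4.smul {s t k : ℝ} {x : V4 ℝ} {I : V4 Iv} {K : Iv} (hk : iv t k K) (h : R4 s x I) :
    R4 (t * s) (x.smul k) (I.smul K) :=
  ⟨iv_mul hk h.1, iv_mul hk h.2.1, iv_mul hk h.2.2.1, iv_mul hk h.2.2.2⟩

lemma R4.mul {s t : ℝ} {x y : V4 ℝ} {I K : V4 Iv} (h : R4 s x I) (h' : R4 t y K) : R4 (s * t) (x.mul y) (I.mul K) := by
  obtain ⟨a1, a2, a3, a4⟩ := h
  obtain ⟨b1, b2, b3, b4⟩ := h'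
  exact ⟨iv_mul a1 b1, iv_add (iv_mul a1 b2) (iv_mul a2 b1),
    iv_add (iv_add (iv_mul a1 b3) (iv_mul a2 b2)) (iv_mul a3 b1),
    iv_add (iv_add (iv_add (iv_mul a1 b4) (iv_mul a2 b3)) (iv_mul a3 b2)) (iv_mul a4 b1)⟩

/-- constants -/
def cI (q : ℤ) : Iv := ⟨q, q⟩
noncomputable def cR (q : ℤ) : ℝ := (q : ℝ)

lemma iv_c (q : ℤ) : iv 1 (cR q) (cI q) := iv_int q

lemma R4_qdot {s : ℝ} (Q : List ℤ) {H : List (V4 ℝ)} {HI : List (V4 Iv)} (h : List.Forall₂ (R4 s) H HI) :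
    R4 s (qdot cR Q H) (qdot cI Q HI) := by
  induction Q generalizing H HI with
  | nil => cases h <;> exact R4_zero s
  | cons q Q ih =>
    cases h with
    | nil => exact R4_zero s
    | cons h1 h2 =>
      simp only [qdot]
      refine R4.add ?_ (ih h2)
      have := R4.smul (iv_c q) h1
      rwa [one_mul] at this

lemma R4_term {s : ℝ} {g U : V4 ℝ} {gI UI : V4 Iv} (h : R4 s g gI) (h' : R4 s U UI) :
    R4 (s * (s * s)) (term cR g U) (term cI gI UI) := by
  unfold term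
  have e : R4 1 (⟨cR 6, cR 6, cR 3, cR 1⟩ : V4 ℝ) (⟨cI 6, cI 6, cI 3, cI 1⟩ : V4 Iv) := ⟨iv_c 6, iv_c 6, iv_c 3, iv_c 1⟩
  have h1 : R4 (s * (s * s)) ((g.mul (U.mul U)).smul (cR 6)) ((gI.mul (UI.mul UI)).smul (cI 6)) := by
    have := R4.smul (iv_c 6) (h.mul (h'.mul h'))
    rwa [one_mul] at this
  have h2 : R4 (s * (s * s)) (((V4.mul (⟨cR 6, cR 6, cR 3, cR 1⟩ : V4 ℝ) g).smul (U.a * U.a)).smul (cR (-1)))
      (((V4.mul (⟨cI 6, cI 6, cI 3, cI 1⟩ : V4 Iv) gI).smul (UI.a * UI.a)).smul (cI (-1))) := by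
    have := R4.smul (iv_c (-1)) (R4.smul (iv_mul h'.1 h'.1) (e.mul h))
    rw [one_mul] at this
    convert this using 1
    ring
  exact h1.add h2

lemma R4_total {s : ℝ} {H G : List (V4 ℝ)} {HI GI : List (V4 Iv)} (h : List.Forall₂ (R4 s) H HI)
    (h' : List.Forall₂ (R4 s) G GI) (Q : List ℤ) : R4 (s * (s * s)) (total cR H Q G) (total cI HI Q GI) := by
  induction h' generalizing Q with
  | nil => exact R4_zero _
  | cons h1 _ ih => exact (R4_term h1 (R4_qdot Q h)).add (ih _)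

/-! ### relation function / jet -/

/-- `∑ Q_i h_i` -/
noncomputable def qd : List ℤ → List ℝ → ℝ
  | q :: Q, h :: H => (q : ℝ) * h + qd Q H
  | _, _ => 0

lemma qd_nil (Q : List ℤ) : qd Q [] = 0 := by cases Q <;> rfl

lemma J_qdot (Q : List ℤ) {H : List (ℝ → ℝ)} {A : List (V4 ℝ)} (h : List.Forall₂ J H A) :
    J (fun y => qd Q (H.map fun f => f y)) (qdot cR Q A) := by
  induction Q generalizing H A with
  | nil =>
    cases h with
    | nil => simpa [qd, qdot] using J.const 0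
    | cons _ _ => simpa [qd, qdot] using J.const 0
  | cons q Q ih =>
    cases h with
    | nil => simpa [qd, qdot] using J.const 0
    | cons h1 h2 =>
      simp only [List.map_cons, qd, qdot]
      exact (h1.smul (q : ℝ)).add (ih h2)

lemma J_at_zero {f : ℝ → ℝ} {x : V4 ℝ} (h : J f x) : f 0 = x.a := by
  obtain ⟨C, _, h1⟩ := h
  have := h1 0 le_rfl zero_le_one
  simp only [pv, mul_zero, sub_zero, ne_eq, OfNat.ofNat_ne_zero, not_false_eq_true, zero_pow, add_zero] at this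
  exact sub_eq_zero.1 (abs_eq_zero.1 (le_antisymm this (abs_nonneg _)))

lemma J.congr' {f g : ℝ → ℝ} {x : V4 ℝ} (h : J f x) (e : ∀ y, g y = f y) : J g x := by
  have : g = f := funext e
  rw [this]
  exact h

/-- the numerator, as a recursion over lists -/
noncomputable def totS (H H0 : List ℝ) (e : ℝ) : List ℤ → List ℝ → ℝ
  | Q, g :: G => (g * (qd Q H * qd Q H) - e * g * (qd Q H0 * qd Q H0)) + totS H H0 e Q.tail G
  | _, [] => 0

lemma J_term {g U : ℝ → ℝ} {x z : V4 ℝ} (hg : J g x) (hU : J U z) :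
    J (fun y => 6 * (g y * (U y * U y) - Real.exp (-y) * g y * (U 0 * U 0))) (term cR x z) := by
  have h1 := (hg.mul (hU.mul hU)).smul 6
  have h2 := ((J_exp.mul hg).smul (U 0 * U 0)).smul (-6)
  have h3 := h1.add h2
  have e1 : (fun y => 6 * (g y * (U y * U y) - Real.exp (-y) * g y * (U 0 * U 0))) =
      fun y => 6 * (g y * (U y * U y)) + -6 * (U 0 * U 0 * (Real.exp (-y) * g y)) := by
    funext y; ring
  rw [e1]
  refine h3.congr ?_
  rw [J_at_zero hU]
  simp only [term, V4.add, V4.smul, V4.mul, cR]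
  push_cast
  congr 1 <;> ring

lemma J_total {H G : List (ℝ → ℝ)} {A B : List (V4 ℝ)} (h : List.Forall₂ J H A) (h' : List.Forall₂ J G B) (Q : List ℤ) :
    J (fun y => 6 * totS (H.map fun f => f y) (H.map fun f => f 0) (Real.exp (-y)) Q (G.map fun f => f y))
      (total cR A Q B) := by
  induction h' generalizing Q with
  | nil => simpa [totS, total] using J.const 0
  | cons h1 _ ih =>
    have e1 := (J_term h1 (J_qdot Q h)).add (ih Q.tail)
    simp only [List.map_cons, totS, total]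
    exact e1.congr' fun y => by ring

lemma qd_drop (L : List ℤ) (h : ℕ → ℝ) : ∀ (k s a : ℕ), qd (L.drop a) ((List.range' s k).map h) =
    ∑ i ∈ range k, (L.getD (a + i) 0 : ℝ) * h (s + i) := by
  intro k
  induction k with
  | zero => intro s a; simp [qd_nil]
  | succ k ih =>
    intro s a
    rw [List.range'_succ, List.map_cons, Finset.sum_range_succ']
    by_cases ha : a < L.length
    · rw [List.drop_eq_getElem_cons ha]
      simp only [qd]
      rw [ih, add_comm]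
      congr 1
      · refine Finset.sum_congr rfl fun i _ => ?_
        rw [show a + 1 + i = a + (i + 1) by ring, show s + 1 + i = s + (i + 1) by ring]
      · simp [List.getD_eq_getElem?_getD, ha]
    · have hz : L.drop a = [] := List.drop_eq_nil_of_le (by omega)
      rw [hz]
      simp only [qd]
      have hg : ∀ i : ℕ, L.getD (a + i) 0 = 0 := fun i => by
        rw [List.getD_eq_getElem?_getD, List.getElem?_eq_none (by omega)]
        rfl
      have e1 : ∑ i ∈ range k, (L.getD (a + (i + 1)) 0 : ℝ) * h (s + (i + 1)) = 0 :=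
        Finset.sum_eq_zero fun i _ => by rw [hg]; simp
      rw [e1, hg]
      simp

lemma RLc_reverse {α : Type*} (c : ℕ → α) (n : ℕ) : (RLc c n).reverse = (List.range (n + 1)).map c := by
  induction n with
  | zero => rfl
  | succ n ih => rw [RLc, List.reverse_cons, ih, List.range_succ (n := n + 1), List.map_append]; rfl

lemma totS_range (L : List ℤ) (H H0 : ℕ → ℝ) (e : ℝ) (g : ℕ → ℝ) : ∀ (k a : ℕ),
    totS ((List.range 65).map H) ((List.range 65).map H0) e (L.drop a) ((List.range' a k).map g) =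
    ∑ i ∈ range k, (g (a + i) * ((∑ b ∈ range 65, (L.getD (a + i + b) 0 : ℝ) * H b) * (∑ b ∈ range 65, (L.getD (a + i + b) 0 : ℝ) * H b)) -
      e * g (a + i) * ((∑ b ∈ range 65, (L.getD (a + i + b) 0 : ℝ) * H0 b) * (∑ b ∈ range 65, (L.getD (a + i + b) 0 : ℝ) * H0 b))) := by
  intro k
  induction k with
  | zero => intro a; simp [totS]
  | succ k ih =>
    intro a
    rw [List.range'_succ, List.map_cons, totS, List.tail_drop, ih, Finset.sum_range_succ', add_comm]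
    congr 1
    · refine Finset.sum_congr rfl fun i _ => ?_
      rw [show a + 1 + i = a + (i + 1) by ring]
    · rw [List.range_eq_range', qd_drop, qd_drop]
      simp

end Pool.Agent.Helper69.HG
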