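import Mathlib

/-!
# Hall gaps: the limit functional of the resonator

Primes in `(T^(j/160), T^((j+1)/160)]`, `1 ≤ j ≤ 31`, have index `j+1`; the resonator is
`R(s) = ∑_{N ≤ 64} Q(N) [X^N] exp(κ ∑_j X^(j+1) P_j(s))`, `κ = 8/5`, `P_j` the sum of `p^(-s)` over block `j`.
-/

open Finset Polynomial MeasureTheory

namespace Pool.Agent.Helper69.HG

/-- `[X^N] exp P` for a polynomial `P` without constant term. -/
noncomputable def expc {K : Type*} [Field K] (P : K[X]) (N : ℕ) : K :=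
  ∑ k ∈ range (N + 1), (P ^ k).coeff N / (k.factorial : K)

/-- `∑_{1 ≤ j ≤ 31} u_j X^(j+1)`. -/
noncomputable def blp {K : Type*} [Field K] (u : ℕ → K) : K[X] :=
  ∑ j ∈ Icc 1 31, C (u j) * X ^ (j + 1)

/-- the block integral `∫_{j/160}^{(j+1)/160} e^(-yu) du/u`. -/
noncomputable def Eb (j : ℕ) (y : ℝ) : ℝ := ∫ u in ((j : ℝ) / 160)..(((j : ℝ) + 1) / 160), Real.exp (-(y * u)) / u

/-- the weights -/
def QL : List ℤ :=
  [1000, 0, 649, 1667, 88, 940, 258, 519, 322, 324, 242, 182, 105, 23, -70, -172, -284, -407, -541, -685, -839, -1005,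
   -1190, -1417, -1727, -2091, -2141, -848, 2863, 7598, 7981, 986, -5936, -6168, -6217, -5984, -6041, -5875, -5830,
   -5696, -5570, -5402, -5204, -4964, -4681, -4348, -3963, -3522, -3024, -2468, -1855, -1183, -436, 501, 2097, 5565,
   12215, 17609, -3250, -101056, -282559, -354210, 10428, 626753, 603914]

/-- the weight of index `N` (zero for `N > 64`) -/
def Qz (N : ℕ) : ℤ := QL.getD N 0

/-- `κ = 8/5` -/
noncomputable def kp : ℝ := 8 / 5

/-- `G_a(y) = [X^a] exp(κ² ∑_j X^(j+1) E_j(y))`. -/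
noncomputable def Gc (y : ℝ) (a : ℕ) : ℝ := expc (blp fun j => kp ^ 2 * Eb j y) a

/-- `H_b(y) = [X^b] exp(κ ∑_j X^(j+1) E_j(y))`. -/
noncomputable def Hc (y : ℝ) (b : ℕ) : ℝ := expc (blp fun j => kp * Eb j y) b

/-- the limit functional at `σ = 1/2 + x/log T` -/
noncomputable def Phi (x : ℝ) : ℝ :=
  (∑ a ∈ range 65, ∑ b ∈ range 65, ∑ c ∈ range 65, (Qz (a + b) : ℝ) * Qz (a + c) *
    (Gc (2 * x) a * Hc (2 * x) b * Hc (2 * x) c - Real.exp (-(2 * x)) * (Gc (2 * x) a * Hc 0 b * Hc 0 c))) / (2 * x)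

end Pool.Agent.Helper69.HG
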