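import Pool.Agent.Helper69.HG.J4

/-! Recursion for the jets of the exponential coefficients. -/

open Finset Polynomial

namespace Pool.Agent.Helper69.HG

/-- scalar product of lists -/
def dots : List ℝ → List ℝ → ℝ
  | a :: A, b :: B => a * b + dots A B
  | _, _ => 0

/-- scalar product of lists of jets -/
def dotv {α : Type*} [Zero α] [Add α] [Mul α] : List (V4 α) → List (V4 α) → V4 α
  | a :: A, b :: B => (a.mul b).add (dotv A B)
  | _, _ => ⟨0, 0, 0, 0⟩

/-- `[c N, ..., c 0]` -/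
def RLc {α : Type*} (c : ℕ → α) : ℕ → List α
  | 0 => [c 0]
  | n + 1 => c (n + 1) :: RLc c n

lemma dots_nil_right (A : List ℝ) : dots A [] = 0 := by cases A <;> rfl

lemma dots_range (f c : ℕ → ℝ) : ∀ (k s n : ℕ),
    dots ((List.range' s k).map f) (RLc c n) = ∑ i ∈ range (min k (n + 1)), f (s + i) * c (n - i) := by
  intro k
  induction k with
  | zero => intro s n; simp [dots]
  | succ k ih =>
    intro s n
    rw [List.range'_succ, List.map_cons]
    cases n with
    | zero =>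
      have h1 : min (k + 1) (0 + 1) = 1 := by omega
      rw [h1, Finset.sum_range_one]
      simp only [RLc, dots, dots_nil_right, add_zero, Nat.sub_zero]
    | succ n =>
      have h1 : min (k + 1) (n + 1 + 1) = min k (n + 1) + 1 := by omega
      rw [h1, Finset.sum_range_succ']
      simp only [RLc, dots, ih, add_zero, Nat.sub_zero]
      have h2 : ∑ i ∈ range (min k (n + 1)), f (s + 1 + i) * c (n - i) =
          ∑ i ∈ range (min k (n + 1)), f (s + (i + 1)) * c (n + 1 - (i + 1)) := by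
        refine Finset.sum_congr rfl fun i _ => ?_
        rw [show s + 1 + i = s + (i + 1) by ring, show n + 1 - (i + 1) = n - i by omega]
      rw [h2]
      exact add_comm _ _

/-- jets pass to scalar products -/
lemma J_dot {F G : List (ℝ → ℝ)} {A B : List (V4 ℝ)} (h1 : List.Forall₂ J F A) (h2 : List.Forall₂ J G B) :
    J (fun y => dots (F.map fun f => f y) (G.map fun f => f y)) (dotv A B) := by
  induction h1 generalizing G B with
  | nil => simpa [dots, dotv] using J.const 0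
  | cons h _ ih =>
    cases h2 with
    | nil => simpa [dots, dotv] using J.const 0
    | cons h' h2' =>
      simp only [List.map_cons, dots, dotv]
      exact (h.mul h').add (ih h2')

/-- `[g N, ..., g 0]` for the jet recursion with coefficient list `A = [1·α_1, 2·α_2, ...]` -/
noncomputable def RL (A : List (V4 ℝ)) : ℕ → List (V4 ℝ)
  | 0 => [⟨1, 0, 0, 0⟩]
  | n + 1 => (dotv A (RL A n)).smul (1 / ((n : ℝ) + 1)) :: RL A n

lemma RL_length (A : List (V4 ℝ)) (n : ℕ) : (RL A n).length = n + 1 := by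
  induction n with
  | zero => rfl
  | succ n ih => simp [RL, ih]

/-- coefficient functions -/
noncomputable def AF (u : ℕ → ℝ → ℝ) : List (ℝ → ℝ) :=
  (List.range' 1 32).map fun m : ℕ => fun y => (m : ℝ) * (blp fun j => u j y).coeff m

lemma jets_list {u : ℕ → ℝ → ℝ} {A : List (V4 ℝ)} (hA : List.Forall₂ J (AF u) A) (n : ℕ) :
    List.Forall₂ J (RLc (fun N => fun y => expc (blp fun j => u j y) N) n) (RL A n) := by
  induction n with
  | zero =>
    simp only [RLc, RL]
    refine List.Forall₂.cons ?_ List.Forall₂.nil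
    simp only [expc_zero]
    exact J.const 1
  | succ n ih =>
    simp only [RLc, RL]
    refine List.Forall₂.cons ?_ ih
    have h1 := (J_dot hA ih).smul (1 / ((n : ℝ) + 1))
    refine (?_ : (fun y => expc (blp fun j => u j y) (n + 1)) = _) ▸ h1
    funext y
    have hn : (n : ℝ) + 1 ≠ 0 := by positivity
    have e1 : (RLc (fun N => fun y => expc (blp fun j => u j y) N) n).map (fun f => f y) =
        RLc (fun N => expc (blp fun j => u j y) N) n := by
      clear ih h1
      induction n with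
      | zero => rfl
      | succ n ih => simp only [RLc, List.map_cons, ih (by positivity)]
    have e2 : (AF u).map (fun f => f y) = (List.range' 1 32).map fun m : ℕ => (m : ℝ) * (blp fun j => u j y).coeff m := by
      unfold AF
      rw [List.map_map]
      rfl
    rw [e1, e2, dots_range]
    have e3 := expc_rec (blp_zero fun j => u j y) n
    rw [eq_comm, one_div, inv_mul_eq_div, div_eq_iff hn, mul_comm (expc _ _), e3]
    refine Finset.sum_subset_zero_on_sdiff ?_ ?_ ?_
    · intro i hi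
      rw [mem_range] at hi ⊢
      omega
    · intro i hi
      rw [mem_sdiff, mem_range, mem_range] at hi
      rw [blp_coeff, if_neg (by omega)]
      ring
    · intro i _
      rw [show 1 + i = i + 1 by ring]
      push_cast
      ring

/-! ### lower and upper bounds by natural numbers -/

def lo4 (D : ℝ) (x : V4 ℕ) (z : V4 ℝ) : Prop :=
  (x.a : ℝ) ≤ D * z.a ∧ (x.b : ℝ) ≤ D * z.b ∧ (x.c : ℝ) ≤ D * z.c ∧ (x.d : ℝ) ≤ D * z.d

def hi4 (D : ℝ) (x : V4 ℕ) (z : V4 ℝ) : Prop :=
  (0 ≤ z.a ∧ 0 ≤ z.b ∧ 0 ≤ z.c ∧ 0 ≤ z.d) ∧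
  D * z.a ≤ x.a ∧ D * z.b ≤ x.b ∧ D * z.c ≤ x.c ∧ D * z.d ≤ x.d

lemma lo_mul1 {D E p q : ℝ} (a b : ℕ) (h1 : (a : ℝ) ≤ D * p) (h2 : (b : ℝ) ≤ E * q) :
    ((a * b : ℕ) : ℝ) ≤ D * E * (p * q) := by
  push_cast
  calc (a : ℝ) * b ≤ (D * p) * (E * q) := mul_le_mul h1 h2 (Nat.cast_nonneg _) ((Nat.cast_nonneg _).trans h1)
    _ = _ := by ring

lemma hi_mul1 {D E p q : ℝ} (_hD : 0 ≤ D) (hE : 0 ≤ E) (a b : ℕ) (_hp : 0 ≤ p) (hq : 0 ≤ q) (h1 : D * p ≤ a) (h2 : E * q ≤ b) :
    D * E * (p * q) ≤ ((a * b : ℕ) : ℝ) := by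
  push_cast
  calc D * E * (p * q) = (D * p) * (E * q) := by ring
    _ ≤ (a : ℝ) * b := mul_le_mul h1 h2 (by positivity) (Nat.cast_nonneg _)

lemma lo4.mul {D E : ℝ} {x y : V4 ℕ} {z w : V4 ℝ} (h : lo4 D x z) (h' : lo4 E y w) : lo4 (D * E) (x.mul y) (z.mul w) := by
  obtain ⟨a1, a2, a3, a4⟩ := h
  obtain ⟨b1, b2, b3, b4⟩ := h'
  have m := @lo_mul1 D E
  refine ⟨m _ _ a1 b1, ?_, ?_, ?_⟩ <;> simp only [V4.mul] <;> rw [Nat.cast_add]
  · have q1 := m _ _ a1 b2
    have q2 := m _ _ a2 b1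
    linarith
  · rw [Nat.cast_add]
    have q1 := m _ _ a1 b3
    have q2 := m _ _ a2 b2
    have q3 := m _ _ a3 b1
    linarith
  · rw [Nat.cast_add, Nat.cast_add]
    have q1 := m _ _ a1 b4
    have q2 := m _ _ a2 b3
    have q3 := m _ _ a3 b2
    have q4 := m _ _ a4 b1
    linarith

lemma hi4.mul {D E : ℝ} (hD : 0 ≤ D) (hE : 0 ≤ E) {x y : V4 ℕ} {z w : V4 ℝ} (h : hi4 D x z) (h' : hi4 E y w) :
    hi4 (D * E) (x.mul y) (z.mul w) := by
  obtain ⟨⟨p1, p2, p3, p4⟩, a1, a2, a3, a4⟩ := h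
  obtain ⟨⟨r1, r2, r3, r4⟩, b1, b2, b3, b4⟩ := h'
  have m := fun {p q : ℝ} => @hi_mul1 D E p q hD hE
  refine ⟨⟨?_, ?_, ?_, ?_⟩, m _ _ p1 r1 a1 b1, ?_, ?_, ?_⟩
  · simp only [V4.mul]; positivity
  · simp only [V4.mul]; positivity
  · simp only [V4.mul]; positivity
  · simp only [V4.mul]; positivity
  · simp only [V4.mul]; rw [Nat.cast_add]
    have q1 := m _ _ p1 r2 a1 b2
    have q2 := m _ _ p2 r1 a2 b1
    linarith
  · simp only [V4.mul]; rw [Nat.cast_add, Nat.cast_add]
    have q1 := m _ _ p1 r3 a1 b3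
    have q2 := m _ _ p2 r2 a2 b2
    have q3 := m _ _ p3 r1 a3 b1
    linarith
  · simp only [V4.mul]; rw [Nat.cast_add, Nat.cast_add, Nat.cast_add]
    have q1 := m _ _ p1 r4 a1 b4
    have q2 := m _ _ p2 r3 a2 b3
    have q3 := m _ _ p3 r2 a3 b2
    have q4 := m _ _ p4 r1 a4 b1
    linarith

lemma lo4.add {D : ℝ} {x y : V4 ℕ} {z w : V4 ℝ} (h : lo4 D x z) (h' : lo4 D y w) : lo4 D (x.add y) (z.add w) := by
  obtain ⟨a1, a2, a3, a4⟩ := h
  obtain ⟨b1, b2, b3, b4⟩ := h'
  refine ⟨?_, ?_, ?_, ?_⟩ <;> simp only [V4.add] <;> push_cast <;> linarith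

lemma hi4.add {D : ℝ} {x y : V4 ℕ} {z w : V4 ℝ} (h : hi4 D x z) (h' : hi4 D y w) : hi4 D (x.add y) (z.add w) := by
  obtain ⟨⟨p1, p2, p3, p4⟩, a1, a2, a3, a4⟩ := h
  obtain ⟨⟨r1, r2, r3, r4⟩, b1, b2, b3, b4⟩ := h'
  refine ⟨⟨?_, ?_, ?_, ?_⟩, ?_, ?_, ?_, ?_⟩ <;> simp only [V4.add] <;> push_cast <;> linarith

lemma lo4_dot {D E : ℝ} {A B : List (V4 ℕ)} {A' B' : List (V4 ℝ)} (h1 : List.Forall₂ (lo4 D) A A')
    (h2 : List.Forall₂ (lo4 E) B B') : lo4 (D * E) (dotv A B) (dotv A' B') := by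
  induction h1 generalizing B B' with
  | nil => simp [dotv, lo4]
  | cons h _ ih =>
    cases h2 with
    | nil => simp [dotv, lo4]
    | cons h' h2' => exact (h.mul h').add (ih h2')

lemma hi4_dot {D E : ℝ} (hD : 0 ≤ D) (hE : 0 ≤ E) {A B : List (V4 ℕ)} {A' B' : List (V4 ℝ)}
    (h1 : List.Forall₂ (hi4 D) A A') (h2 : List.Forall₂ (hi4 E) B B') : hi4 (D * E) (dotv A B) (dotv A' B') := by
  induction h1 generalizing B B' with
  | nil => simp [dotv, hi4]
  | cons h _ ih =>
    cases h2 with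
    | nil => simp [dotv, hi4]
    | cons h' h2' => exact (h.mul hD hE h').add (ih h2')

/-- check of the lower recursion for `[g N, ..., g 0]` -/
def chkLo (D : ℕ) (A : List (V4 ℕ)) : List (V4 ℕ) → Bool
  | [] => false
  | g :: G => match G with
    | [] => Nat.ble g.a D && Nat.beq g.b 0 && Nat.beq g.c 0 && Nat.beq g.d 0
    | _ :: _ => let r := dotv A G
      let M := D * G.length
      Nat.ble (M * g.a) r.a && Nat.ble (M * g.b) r.b && Nat.ble (M * g.c) r.c && Nat.ble (M * g.d) r.d && chkLo D A G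

/-- check of the upper recursion -/
def chkHi (D : ℕ) (A : List (V4 ℕ)) : List (V4 ℕ) → Bool
  | [] => false
  | g :: G => match G with
    | [] => Nat.ble D g.a
    | _ :: _ => let r := dotv A G
      let M := D * G.length
      Nat.ble r.a (M * g.a) && Nat.ble r.b (M * g.b) && Nat.ble r.c (M * g.c) && Nat.ble r.d (M * g.d) && chkHi D A G

lemma chkLo_sound {D : ℕ} (hD : 0 < D) {A : List (V4 ℕ)} {A' : List (V4 ℝ)} (hA : List.Forall₂ (lo4 D) A A') :
    ∀ (G : List (V4 ℕ)) (n : ℕ), G.length = n + 1 → chkLo D A G = true → List.Forall₂ (lo4 D) G (RL A' n) := by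
  have hD' : (0:ℝ) < D := by exact_mod_cast hD
  intro G
  induction G with
  | nil => intro n h; simp at h
  | cons g G ih =>
    intro n hn hc
    cases G with
    | nil =>
      have : n = 0 := by simpa using hn.symm
      subst this
      simp only [chkLo, Bool.and_eq_true, Nat.ble_eq, Nat.beq_eq] at hc
      obtain ⟨⟨⟨h1, h2⟩, h3⟩, h4⟩ := hc
      have h1' : (g.a : ℝ) ≤ D := by exact_mod_cast h1
      refine List.Forall₂.cons ⟨?_, ?_, ?_, ?_⟩ List.Forall₂.nil
      · simpa using h1'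
      · simp [h2]
      · simp [h3]
      · simp [h4]
    | cons g' G =>
      cases n with
      | zero => simp at hn
      | succ n =>
        have hlen : (g' :: G).length = n + 1 := by simpa using hn
        simp only [chkLo, Bool.and_eq_true, Nat.ble_eq] at hc
        obtain ⟨⟨⟨⟨h1, h2⟩, h3⟩, h4⟩, h5⟩ := hc
        have hr := ih n hlen h5
        have hd := lo4_dot hA hr
        refine List.Forall₂.cons ?_ hr
        rw [hlen] at h1 h2 h3 h4
        have key : ∀ (x r : ℕ) (z : ℝ), D * (n + 1) * x ≤ r → (r : ℝ) ≤ D * D * z → (x : ℝ) ≤ D * (1 / ((n:ℝ) + 1) * z) := by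
          intro x r z ha hb
          have ha' : (D : ℝ) * ((n:ℝ) + 1) * x ≤ r := by exact_mod_cast ha
          have hn1 : (0:ℝ) < (n:ℝ) + 1 := by positivity
          have e : (D : ℝ) * (1 / ((n:ℝ) + 1) * z) = (D * z) / (n + 1) := by field_simp
          rw [e, le_div_iff₀ hn1]
          have := ha'.trans hb
          nlinarith
        exact ⟨key _ _ _ h1 hd.1, key _ _ _ h2 hd.2.1, key _ _ _ h3 hd.2.2.1, key _ _ _ h4 hd.2.2.2⟩

lemma chkHi_sound {D : ℕ} (hD : 0 < D) {A : List (V4 ℕ)} {A' : List (V4 ℝ)} (hA : List.Forall₂ (hi4 D) A A') :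
    ∀ (G : List (V4 ℕ)) (n : ℕ), G.length = n + 1 → chkHi D A G = true → List.Forall₂ (hi4 D) G (RL A' n) := by
  have hD' : (0:ℝ) < D := by exact_mod_cast hD
  intro G
  induction G with
  | nil => intro n h; simp at h
  | cons g G ih =>
    intro n hn hc
    cases G with
    | nil =>
      have : n = 0 := by simpa using hn.symm
      subst this
      simp only [chkHi, Nat.ble_eq] at hc
      have h1' : (D : ℝ) ≤ g.a := by exact_mod_cast hc
      refine List.Forall₂.cons ⟨⟨by norm_num, by norm_num, by norm_num, by norm_num⟩, ?_, ?_, ?_, ?_⟩ List.Forall₂.nil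
      · simpa using h1'
      · simp
      · simp
      · simp
    | cons g' G =>
      cases n with
      | zero => simp at hn
      | succ n =>
        have hlen : (g' :: G).length = n + 1 := by simpa using hn
        simp only [chkHi, Bool.and_eq_true, Nat.ble_eq] at hc
        obtain ⟨⟨⟨⟨h1, h2⟩, h3⟩, h4⟩, h5⟩ := hc
        have hr := ih n hlen h5
        have hd := hi4_dot hD'.le hD'.le hA hr
        refine List.Forall₂.cons ?_ hr
        rw [hlen] at h1 h2 h3 h4
        have hn1 : (0:ℝ) < (n:ℝ) + 1 := by positivity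
        have key : ∀ (x r : ℕ) (z : ℝ), r ≤ D * (n + 1) * x → D * D * z ≤ (r : ℝ) → D * (1 / ((n:ℝ) + 1) * z) ≤ (x : ℝ) := by
          intro x r z ha hb
          have ha' : (r : ℝ) ≤ (D : ℝ) * ((n:ℝ) + 1) * x := by exact_mod_cast ha
          have e : (D : ℝ) * (1 / ((n:ℝ) + 1) * z) = (D * z) / (n + 1) := by field_simp
          rw [e, div_le_iff₀ hn1]
          have := hb.trans ha'
          nlinarith
        obtain ⟨⟨p1, p2, p3, p4⟩, q1, q2, q3, q4⟩ := hd
        exact ⟨⟨mul_nonneg (by positivity) p1, mul_nonneg (by positivity) p2, mul_nonneg (by positivity) p3,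
          mul_nonneg (by positivity) p4⟩, key _ _ _ h1 q1, key _ _ _ h2 q2, key _ _ _ h3 q3, key _ _ _ h4 q4⟩

end Pool.Agent.Helper69.HG
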