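import Pool.Agent.Helper69.HG.Rec

/-! Jets of order 3 (alternating signs) on `[0,1]`. -/

open Finset Polynomial

namespace Pool.Agent.Helper69.HG

/-- quadruples -/
structure V4 (α : Type*) where
  a : α
  b : α
  c : α
  d : α

namespace V4

variable {α : Type*}

/-- product of jets -/
def mul [Add α] [Mul α] (x y : V4 α) : V4 α :=
  ⟨x.a * y.a, x.a * y.b + x.b * y.a, x.a * y.c + x.b * y.b + x.c * y.a,
   x.a * y.d + x.b * y.c + x.c * y.b + x.d * y.a⟩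

def add [Add α] (x y : V4 α) : V4 α := ⟨x.a + y.a, x.b + y.b, x.c + y.c, x.d + y.d⟩

def smul [Mul α] (k : α) (x : V4 α) : V4 α := ⟨k * x.a, k * x.b, k * x.c, k * x.d⟩

end V4

/-- the polynomial `a - b y + c y² - d y³` -/
def pv (x : V4 ℝ) (y : ℝ) : ℝ := x.a - x.b * y + x.c * y ^ 2 - x.d * y ^ 3

/-- `f` has jet `x` on `[0,1]` -/
def J (f : ℝ → ℝ) (x : V4 ℝ) : Prop := ∃ C : ℝ, 0 ≤ C ∧ ∀ y : ℝ, 0 ≤ y → y ≤ 1 → |f y - pv x y| ≤ C * y ^ 4

lemma J.add {f g : ℝ → ℝ} {x z : V4 ℝ} (hf : J f x) (hg : J g z) : J (fun y => f y + g y) (x.add z) := by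
  obtain ⟨C, hC, h1⟩ := hf
  obtain ⟨D, hD, h2⟩ := hg
  refine ⟨C + D, by positivity, fun y h0 hy => ?_⟩
  have e : f y + g y - pv (x.add z) y = (f y - pv x y) + (g y - pv z y) := by
    unfold pv V4.add; ring
  rw [e, add_mul]
  exact (abs_add_le _ _).trans (add_le_add (h1 y h0 hy) (h2 y h0 hy))

lemma J.smul {f : ℝ → ℝ} {x : V4 ℝ} (hf : J f x) (k : ℝ) : J (fun y => k * f y) (x.smul k) := by
  obtain ⟨C, hC, h1⟩ := hf
  refine ⟨|k| * C, by positivity, fun y h0 hy => ?_⟩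
  have e : k * f y - pv (x.smul k) y = k * (f y - pv x y) := by
    unfold pv V4.smul; ring
  rw [e, abs_mul, mul_assoc]
  exact mul_le_mul_of_nonneg_left (h1 y h0 hy) (abs_nonneg _)

lemma pv_bd (x : V4 ℝ) : ∃ C : ℝ, 0 ≤ C ∧ ∀ y : ℝ, 0 ≤ y → y ≤ 1 → |pv x y| ≤ C := by
  refine ⟨|x.a| + |x.b| + |x.c| + |x.d|, by positivity, fun y h0 hy => ?_⟩
  have h2 : y ^ 2 ≤ 1 := pow_le_one₀ h0 hy
  have h3 : y ^ 3 ≤ 1 := pow_le_one₀ h0 hy
  have h20 : 0 ≤ y ^ 2 := by positivity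
  have h30 : 0 ≤ y ^ 3 := by positivity
  have hb : |x.b * y| ≤ |x.b| := by
    rw [abs_mul, abs_of_nonneg h0]; exact mul_le_of_le_one_right (abs_nonneg _) hy
  have hc : |x.c * y ^ 2| ≤ |x.c| := by
    rw [abs_mul, abs_of_nonneg h20]; exact mul_le_of_le_one_right (abs_nonneg _) h2
  have hd : |x.d * y ^ 3| ≤ |x.d| := by
    rw [abs_mul, abs_of_nonneg h30]; exact mul_le_of_le_one_right (abs_nonneg _) h3
  unfold pv
  have := abs_le.1 hb
  have := abs_le.1 hc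
  have := abs_le.1 hd
  have := neg_abs_le x.a
  have := le_abs_self x.a
  rw [abs_le]
  constructor <;> linarith

lemma J.mul {f g : ℝ → ℝ} {x z : V4 ℝ} (hf : J f x) (hg : J g z) : J (fun y => f y * g y) (x.mul z) := by
  obtain ⟨C, hC, h1⟩ := hf
  obtain ⟨D, hD, h2⟩ := hg
  obtain ⟨A, hA, hx⟩ := pv_bd x
  obtain ⟨B, hB, hz⟩ := pv_bd z
  set E : ℝ := |x.b * z.d + x.c * z.c + x.d * z.b| + |x.c * z.d + x.d * z.c| + |x.d * z.d| with hE
  refine ⟨C * (B + D) + A * D + E, by positivity, fun y h0 hy => ?_⟩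
  have h20 : 0 ≤ y ^ 4 := by positivity
  have h4 : y ^ 4 ≤ 1 := pow_le_one₀ h0 hy
  have hg1 : |g y| ≤ B + D := by
    have := h2 y h0 hy
    have h3 : D * y ^ 4 ≤ D := mul_le_of_le_one_right hD h4
    calc |g y| = |(g y - pv z y) + pv z y| := by ring_nf
      _ ≤ |g y - pv z y| + |pv z y| := abs_add_le _ _
      _ ≤ B + D := by linarith [hz y h0 hy]
  have e : f y * g y - pv (x.mul z) y = (f y - pv x y) * g y + pv x y * (g y - pv z y) +
      ((x.b * z.d + x.c * z.c + x.d * z.b) - (x.c * z.d + x.d * z.c) * y + x.d * z.d * y ^ 2) * y ^ 4 := by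
    unfold pv V4.mul; ring
  have e1 : |(f y - pv x y) * g y| ≤ C * (B + D) * y ^ 4 := by
    rw [abs_mul]
    calc |f y - pv x y| * |g y| ≤ (C * y ^ 4) * (B + D) := mul_le_mul (h1 y h0 hy) hg1 (abs_nonneg _) (by positivity)
      _ = _ := by ring
  have e2 : |pv x y * (g y - pv z y)| ≤ A * D * y ^ 4 := by
    rw [abs_mul]
    calc |pv x y| * |g y - pv z y| ≤ A * (D * y ^ 4) := mul_le_mul (hx y h0 hy) (h2 y h0 hy) (abs_nonneg _) hA
      _ = _ := by ring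
  have e3 : |((x.b * z.d + x.c * z.c + x.d * z.b) - (x.c * z.d + x.d * z.c) * y + x.d * z.d * y ^ 2) * y ^ 4| ≤
      E * y ^ 4 := by
    rw [abs_mul, abs_of_nonneg h20]
    refine mul_le_mul_of_nonneg_right ?_ h20
    have hy2 : y ^ 2 ≤ 1 := pow_le_one₀ h0 hy
    have hy20 : 0 ≤ y ^ 2 := by positivity
    have q1 : |(x.c * z.d + x.d * z.c) * y| ≤ |x.c * z.d + x.d * z.c| := by
      rw [abs_mul, abs_of_nonneg h0]; exact mul_le_of_le_one_right (abs_nonneg _) hy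
    have q2 : |x.d * z.d * y ^ 2| ≤ |x.d * z.d| := by
      rw [abs_mul, abs_of_nonneg hy20]; exact mul_le_of_le_one_right (abs_nonneg _) hy2
    have q3 := abs_le.1 q1
    have q4 := abs_le.1 q2
    have q5 := neg_abs_le (x.b * z.d + x.c * z.c + x.d * z.b)
    have q6 := le_abs_self (x.b * z.d + x.c * z.c + x.d * z.b)
    rw [abs_le]
    constructor <;> linarith
  rw [e]
  calc _ ≤ |(f y - pv x y) * g y + pv x y * (g y - pv z y)| + _ := abs_add_le _ _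
    _ ≤ (|(f y - pv x y) * g y| + |pv x y * (g y - pv z y)|) + _ := add_le_add (abs_add_le _ _) le_rfl
    _ ≤ (C * (B + D) * y ^ 4 + A * D * y ^ 4) + E * y ^ 4 := add_le_add (add_le_add e1 e2) e3
    _ = _ := by ring

lemma J.const (c : ℝ) : J (fun _ => c) ⟨c, 0, 0, 0⟩ :=
  ⟨0, le_rfl, fun y _ _ => by simp [pv]⟩

lemma J.congr {f : ℝ → ℝ} {x z : V4 ℝ} (hf : J f x) (h : x = z) : J f z := h ▸ hf

/-- `e^(-t)` against its Taylor polynomial, `0 ≤ t` -/
lemma exp_jet {t : ℝ} (h0 : 0 ≤ t) (h1 : t ≤ 1) : |Real.exp (-t) - (1 - t + t ^ 2 / 2 - t ^ 3 / 6)| ≤ t ^ 4 := by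
  have h := Real.exp_bound (x := -t) (by rw [abs_neg, abs_of_nonneg h0]; exact h1) (n := 4) (by norm_num)
  rw [abs_neg, abs_of_nonneg h0] at h
  simp only [Finset.sum_range_succ, Finset.sum_range_zero] at h
  norm_num [Nat.factorial] at h
  refine le_trans (le_of_eq ?_) (h.trans ?_)
  · congr 1; ring
  · have : 0 ≤ t ^ 4 := by positivity
    linarith

lemma J_exp : J (fun y => Real.exp (-y)) ⟨1, 1, 1 / 2, 1 / 6⟩ := by
  refine ⟨1, by norm_num, fun y h0 hy => ?_⟩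
  have := exp_jet h0 hy
  refine le_trans (le_of_eq ?_) (this.trans (by linarith))
  unfold pv
  congr 1; ring

end Pool.Agent.Helper69.HG
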