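import Pool.Agent.Helper69.HG.KData

/-! The final interval computation. -/

open Finset Polynomial

namespace Pool.Agent.Helper69.HG

/-- pack lower and upper bounds -/
def pk (x y : V4 ℕ) : V4 Iv :=
  ⟨⟨Int.ofNat x.a, Int.ofNat y.a⟩, ⟨Int.ofNat x.b, Int.ofNat y.b⟩, ⟨Int.ofNat x.c, Int.ofNat y.c⟩, ⟨Int.ofNat x.d, Int.ofNat y.d⟩⟩

def HI : List (V4 Iv) := (List.zipWith pk Hlo Hhi).reverse
def GI : List (V4 Iv) := (List.zipWith pk Glo Ghi).reverse

/-- the check of the result -/
def finChk (P : V4 Iv) : Bool :=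
  decide (P.b.hi < 0) && decide (-4312496 * P.b.lo + 10252800 * P.c.hi - 11520000 * P.d.lo < 0)

lemma chk5 : finChk (total cI HI QL GI) = true := by decide +kernel

end Pool.Agent.Helper69.HG
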